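import Mathlib

/-!
# Leech's problem: the zero estimate and the nonvanishing minor
-/

namespace Pool.Agent.Lib.MP3c6092

open Finset Polynomial Matrix

/-- Zero estimate (Laurent). -/
theorem zero_est {K L : ℕ} (P : Fin L → ℝ[X]) (hP : ∀ l, (P l).natDegree < K)
    (z x : Fin L → ℝ) (hx : Function.Injective x) (I : Finset (ℝ × ℝ))
    (hI : ∀ p ∈ I, p.2 ≠ 0) (hc : (K - 1) * L < (I.image Prod.fst).card)
    (hv : ∀ i : Fin L, ∀ p ∈ I, ∑ l, (P l).eval (z i + p.1) * (x i * p.2) ^ (l : ℕ) = 0) :
    ∀ l, P l = 0 := by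
  classical
  by_contra hcon
  push Not at hcon
  obtain ⟨l₀, hl₀⟩ := hcon
  set Q : Fin L → ℝ[X] := fun l => if P l = 0 then 1 else P l with hQdef
  have hQ0 : ∀ l, Q l ≠ 0 := by
    intro l; simp only [hQdef]; split_ifs with h
    · exact one_ne_zero
    · exact h
  have hQd : ∀ l, (Q l).natDegree ≤ K - 1 := by
    intro l; simp only [hQdef]; split_ifs with h
    · simp
    · have := hP l; omega
  -- the polynomial matrix
  set M : Matrix (Fin L) (Fin L) ℝ[X] := Matrix.of fun i l =>
    C (x i ^ (l : ℕ)) * (Q l).comp (X + C (z i)) with hMdef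
  set D : ℝ[X] := M.det with hDdef
  -- each entry
  have hcompd : ∀ l (c : ℝ), ((Q l).comp (X + C c)).natDegree = (Q l).natDegree := by
    intro l c
    rw [natDegree_comp, natDegree_X_add_C, mul_one]
  have hcompl : ∀ l (c : ℝ), ((Q l).comp (X + C c)).coeff (Q l).natDegree = (Q l).leadingCoeff := by
    intro l c
    have h1 : ((Q l).comp (X + C c)).leadingCoeff = (Q l).leadingCoeff := by
      rw [leadingCoeff_comp (by rw [natDegree_X_add_C]; exact one_ne_zero), leadingCoeff_X_add_C, one_pow, mul_one]
    rw [leadingCoeff, hcompd] at h1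
    exact h1
  have hcomp0 : ∀ l (c : ℝ), (Q l).comp (X + C c) ≠ 0 := by
    intro l c h
    have := hcompl l c
    rw [h, coeff_zero] at this
    exact hQ0 l (leadingCoeff_eq_zero.mp this.symm)
  set S : ℕ := ∑ l, (Q l).natDegree with hSdef
  have hprod : ∀ σ : Equiv.Perm (Fin L), (∏ l, (Q l).comp (X + C (z (σ l)))).coeff S
      = ∏ l, (Q l).leadingCoeff := by
    intro σ
    have h1 : (∏ l, (Q l).comp (X + C (z (σ l)))).natDegree = S := by
      rw [natDegree_prod _ _ (fun l _ => hcomp0 l _)]
      exact Finset.sum_congr rfl fun l _ => hcompd l _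
    rw [← h1]
    change (∏ l, (Q l).comp (X + C (z (σ l)))).leadingCoeff = _
    rw [leadingCoeff_prod]
    refine Finset.prod_congr rfl fun l _ => ?_
    rw [leadingCoeff, hcompd, hcompl]
  have hcoeff : D.coeff S = (∏ l, (Q l).leadingCoeff) * (Matrix.vandermonde x).det := by
    rw [hDdef, Matrix.det_apply, finsetSum_coeff, Matrix.det_apply, Finset.mul_sum]
    refine Finset.sum_congr rfl fun σ _ => ?_
    have h2 : ∏ l, M (σ l) l = C (∏ l, x (σ l) ^ (l : ℕ)) * ∏ l, (Q l).comp (X + C (z (σ l))) := by
      rw [map_prod, ← Finset.prod_mul_distrib]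
      rfl
    rw [h2]
    have h3 : ((Equiv.Perm.sign σ • (C (∏ l, x (σ l) ^ (l : ℕ)) * ∏ l, (Q l).comp (X + C (z (σ l)))) :
        ℝ[X])).coeff S = Equiv.Perm.sign σ • ((∏ l, x (σ l) ^ (l : ℕ)) * ∏ l, (Q l).leadingCoeff) := by
      rcases Int.units_eq_one_or (Equiv.Perm.sign σ) with h | h <;> rw [h]
      · rw [one_smul, one_smul, coeff_C_mul, hprod]
      · rw [Units.neg_smul, Units.neg_smul, one_smul, one_smul, coeff_neg, coeff_C_mul, hprod]
    rw [h3]
    have h4 : ∏ l, Matrix.vandermonde x (σ l) l = ∏ l, x (σ l) ^ (l : ℕ) := rfl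
    rw [h4, mul_smul_comm, mul_comm]
  have hD0 : D ≠ 0 := by
    intro h
    rw [h, coeff_zero] at hcoeff
    rcases mul_eq_zero.mp hcoeff.symm with h | h
    · obtain ⟨l, _, hl⟩ := Finset.prod_eq_zero_iff.mp h
      exact hQ0 l (leadingCoeff_eq_zero.mp hl)
    · exact (Matrix.det_vandermonde_ne_zero_iff.mpr hx) h
  have hDd : D.natDegree ≤ (K - 1) * L := by
    rw [hDdef, Matrix.det_apply]
    refine natDegree_sum_le_of_forall_le _ _ fun σ _ => ?_
    have h5 : (∏ l, M (σ l) l).natDegree ≤ (K - 1) * L := by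
      refine (natDegree_prod_le _ _).trans ?_
      calc ∑ l, (M (σ l) l).natDegree ≤ ∑ _l : Fin L, (K - 1) := by
            refine Finset.sum_le_sum fun l _ => ?_
            refine (natDegree_C_mul_le _ _).trans ?_
            exact (hcompd l _).le.trans (hQd l)
        _ = (K - 1) * L := by simp [mul_comm]
    rcases Int.units_eq_one_or (Equiv.Perm.sign σ) with h | h <;> rw [h]
    · rw [one_smul]; exact h5
    · rw [Units.neg_smul, one_smul, natDegree_neg]; exact h5
  -- roots
  have hroot : ∀ t ∈ I.image Prod.fst, D.IsRoot t := by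
    intro t ht
    obtain ⟨p, hp, rfl⟩ := Finset.mem_image.mp ht
    have h6 : D.eval p.1 = (Matrix.of fun (i l : Fin L) => x i ^ (l : ℕ) * (Q l).eval (z i + p.1)).det := by
      have := (Polynomial.evalRingHom p.1).map_det M
      simp only [coe_evalRingHom] at this
      rw [hDdef, this]
      congr 1
      ext i l
      simp only [RingHom.mapMatrix_apply, Matrix.map_apply, hMdef, Matrix.of_apply, coe_evalRingHom,
        eval_mul, eval_C, eval_comp, eval_add, eval_X]
      rw [add_comm]
    rw [Polynomial.IsRoot, h6]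
    refine Matrix.exists_mulVec_eq_zero_iff.mp ⟨fun l => if P l = 0 then 0 else p.2 ^ (l : ℕ), ?_, ?_⟩
    · intro h
      have := congrFun h l₀
      simp only [if_neg hl₀, Pi.zero_apply] at this
      exact pow_ne_zero _ (hI p hp) this
    · funext i
      simp only [Matrix.mulVec, dotProduct, Matrix.of_apply, Pi.zero_apply]
      refine Eq.trans ?_ (hv i p hp)
      refine Finset.sum_congr rfl fun l _ => ?_
      by_cases h : P l = 0
      · simp [h]
      · simp only [hQdef, if_neg h, mul_pow]; ring
  have hcard : (I.image Prod.fst).card ≤ D.natDegree := by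
    have h7 : I.image Prod.fst ⊆ D.roots.toFinset := by
      intro t ht
      rw [Multiset.mem_toFinset, mem_roots hD0]
      exact hroot t ht
    exact (Finset.card_le_card h7).trans ((Multiset.toFinset_card_le _).trans (card_roots' D))
  omega

/-- A family of rows with trivial kernel contains a nonvanishing minor. -/
theorem exists_minor {ι : Type*} {N : ℕ} (f : ι → Fin N → ℝ)
    (hf : ∀ c : Fin N → ℝ, (∀ i, ∑ j, c j * f i j = 0) → c = 0) :
    ∃ e : Fin N → ι, (Matrix.of fun i j => f (e i) j).det ≠ 0 := by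
  classical
  have hspan : Submodule.span ℝ (Set.range f) = ⊤ := by
    by_contra h
    obtain ⟨g, hg, hg'⟩ := Submodule.exists_le_ker_of_lt_top _ (lt_top_iff_ne_top.mpr h)
    apply hg
    have h1 : (fun j => g (Pi.single j 1)) = 0 := by
      apply hf
      intro i
      have h2 : g (f i) = 0 := hg' (Submodule.subset_span ⟨i, rfl⟩)
      rw [← h2]
      conv_rhs => rw [← Finset.univ_sum_single (f i)]
      rw [map_sum]
      refine Finset.sum_congr rfl fun j _ => ?_
      have : Pi.single j (f i j) = (f i j) • (Pi.single j (1 : ℝ) : Fin N → ℝ) := by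
        rw [← Pi.single_smul, smul_eq_mul, mul_one]
      rw [this, map_smul, smul_eq_mul, mul_comm]
    refine LinearMap.pi_ext' fun j => LinearMap.ext_ring ?_
    have := congrFun h1 j
    simpa using this
  obtain ⟨s, hs, hb⟩ := exists_linearIndependent ℝ (Set.range f)
  obtain ⟨hs1, hs2⟩ := hb
  have hsp : ⊤ ≤ Submodule.span ℝ (Set.range (Subtype.val : s → Fin N → ℝ)) := by
    rw [Subtype.range_coe, hs1, hspan]
  set B := Module.Basis.mk hs2 hsp with hB
  have hfin : Finite s := Module.Finite.finite_basis B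
  have : Fintype s := Fintype.ofFinite s
  have hcard : Fintype.card s = N := by
    have := Module.finrank_eq_card_basis B
    rw [Module.finrank_fin_fun] at this
    exact this.symm
  let u : Fin N ≃ s := (finCongr hcard.symm).trans (Fintype.equivFin s).symm
  choose e he using fun i : Fin N => hs (u i).2
  refine ⟨e, ?_⟩
  have hli : LinearIndependent ℝ (fun i : Fin N => ((u i : s) : Fin N → ℝ)) :=
    hs2.comp u u.injective
  have hrow : (Matrix.of fun i j => f (e i) j) = Matrix.of fun i => ((u i : s) : Fin N → ℝ) := by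
    ext i j
    simp only [Matrix.of_apply]
    rw [he i]
  rw [hrow]
  have h3 : IsUnit (Matrix.of fun i => ((u i : s) : Fin N → ℝ)) :=
    Matrix.linearIndependent_rows_iff_isUnit.mp hli
  exact ((Matrix.isUnit_iff_isUnit_det _).mp h3).ne_zero

end Pool.Agent.Lib.MP3c6092
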