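import Mathlib
import Pool.Agent.Lib.MP_3c6092_nt.Zero
import Pool.Agent.Lib.MP_524521_nt.RA.Cost2

/-!
# Leech's problem: the interpolation determinant for two logarithms
-/

namespace Pool.Agent.Lib.MP3c6092

open Finset Polynomial Matrix

/-- multiplicatively independent -/
def Indep (a b : ℕ) : Prop := ∀ i j : ℕ, a ^ i = b ^ j → i = 0 ∧ j = 0

theorem Indep.inj {a b : ℕ} (h : Indep a b) (ha : 0 < a) (hb : 0 < b) {r s r' s' : ℕ}
    (he : a ^ r * b ^ s = a ^ r' * b ^ s') : r = r' ∧ s = s' := by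
  wlog hr : r' ≤ r generalizing r s r' s'
  · obtain ⟨h1, h2⟩ := this he.symm (by omega)
    exact ⟨h1.symm, h2.symm⟩
  obtain ⟨t, rfl⟩ := Nat.exists_eq_add_of_le hr
  rw [pow_add, mul_assoc] at he
  have he' : a ^ t * b ^ s = b ^ s' := Nat.eq_of_mul_eq_mul_left (Nat.pow_pos ha) he
  rcases le_total s s' with hs | hs
  · obtain ⟨u, rfl⟩ := Nat.exists_eq_add_of_le hs
    rw [pow_add, mul_comm] at he'
    have h3 := h t u (Nat.eq_of_mul_eq_mul_left (Nat.pow_pos hb) he')
    omega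
  · obtain ⟨u, rfl⟩ := Nat.exists_eq_add_of_le hs
    rw [pow_add] at he'
    have h4 : a ^ t * b ^ u = 1 := by
      have h5 : b ^ s' * (a ^ t * b ^ u) = b ^ s' * 1 := by
        rw [mul_one]
        calc b ^ s' * (a ^ t * b ^ u) = a ^ t * (b ^ s' * b ^ u) := by ring
          _ = b ^ s' := he'
      exact Nat.eq_of_mul_eq_mul_left (Nat.pow_pos hb) h5
    have h6 : a ^ t = 1 := Nat.eq_one_of_mul_eq_one_right h4
    have h7 : b ^ u = 1 := Nat.eq_one_of_mul_eq_one_left h4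
    have h8 := h t 0 (by rw [h6, pow_zero])
    have h9 := h 0 u (by rw [h7, pow_zero])
    omega

/-- the value of the monomial number `j` at the point `(r, s)` -/
noncomputable def fv (a b m n K L : ℕ) (p : ℕ × ℕ) (j : Fin (K * L)) : ℝ :=
  ((p.1 * n + p.2 * m : ℕ) : ℝ) ^ ((finProdFinEquiv.symm j).1 : ℕ) *
    ((a ^ p.1 * b ^ p.2 : ℕ) : ℝ) ^ ((finProdFinEquiv.symm j).2 : ℕ)

theorem fv_kernel {a b m n q K L : ℕ} (hK : K = q ^ 5) (hL : L = q ^ 2) (hq : 2 ≤ q) (ha : 2 ≤ a)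
    (hb : 2 ≤ b) (hi : Indep a b)
    (hmn : Nat.Coprime m n) (hqm : q ^ 4 ≤ m) (c : Fin (K * L) → ℝ)
    (hc : ∀ p : Fin (2 * q ^ 4) × Fin (2 * q ^ 4),
      ∑ j, c j * fv a b m n K L ((p.1 : ℕ), (p.2 : ℕ)) j = 0) : c = 0 := by
  classical
  have hq0 : 0 < q := by omega
  have hK0 : 0 < K := by rw [hK]; positivity
  set P : Fin L → ℝ[X] := fun l => ∑ i : Fin K, C (c (finProdFinEquiv (i, l))) * X ^ (i : ℕ) with hP
  have hPd : ∀ l, (P l).natDegree < K := by
    intro l
    have : (P l).natDegree ≤ K - 1 := by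
      refine natDegree_sum_le_of_forall_le _ _ fun i _ => ?_
      refine (natDegree_C_mul_le _ _).trans ?_
      rw [natDegree_X_pow]
      have := i.2; omega
    omega
  set z : Fin L → ℝ := fun i => (((i : ℕ) / q * n + (i : ℕ) % q * m : ℕ) : ℝ) with hz
  set x : Fin L → ℝ := fun i => ((a ^ ((i : ℕ) / q) * b ^ ((i : ℕ) % q) : ℕ) : ℝ) with hx
  have hxi : Function.Injective x := by
    intro i i' h
    simp only [hx] at h
    have h1 := hi.inj (by omega) (by omega) (Nat.cast_injective h)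
    apply Fin.ext
    rw [← Nat.div_add_mod (i : ℕ) q, ← Nat.div_add_mod (i' : ℕ) q, h1.1, h1.2]
  set I : Finset (ℝ × ℝ) := (Finset.range (q ^ 4) ×ˢ Finset.range (q ^ 4)).image
    (fun p => (((p.1 * n + p.2 * m : ℕ) : ℝ), ((a ^ p.1 * b ^ p.2 : ℕ) : ℝ))) with hI
  have hm0 : 0 < m := lt_of_lt_of_le (by positivity) hqm
  have hzi : ((Finset.range (q ^ 4) ×ˢ Finset.range (q ^ 4)) : Finset (ℕ × ℕ)).card
      = (I.image Prod.fst).card := by
    rw [hI, Finset.image_image, Finset.card_image_of_injOn]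
    rintro ⟨r, s⟩ h1 ⟨r', s'⟩ h2 h3
    simp only [Finset.coe_product, Finset.coe_range, Set.mem_prod, Set.mem_Iio] at h1 h2
    simp only [Function.comp] at h3
    have h4 : r * n + s * m = r' * n + s' * m := Nat.cast_injective h3
    have h5 : (r * n) % m = (r' * n) % m := by
      have := congrArg (· % m) h4
      simpa [Nat.add_mul_mod_self_right] using this
    have h6 : r ≡ r' [MOD m] := Nat.ModEq.cancel_right_of_coprime hmn (by exact h5)
    have h7 : r = r' := Nat.ModEq.eq_of_lt_of_lt h6 (by omega) (by omega)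
    subst h7
    have h8 : s * m = s' * m := by omega
    rw [Nat.eq_of_mul_eq_mul_right hm0 h8]
  have hz2 := zero_est (K := K) (L := L) P hPd z x hxi I ?_ ?_ ?_
  · funext j
    obtain ⟨⟨i, l⟩, rfl⟩ := finProdFinEquiv.surjective j
    have h1 := congrArg (fun p => p.coeff (i : ℕ)) (hz2 l)
    simp only [hP, finsetSum_coeff, coeff_C_mul, coeff_X_pow, coeff_zero] at h1
    rw [Finset.sum_eq_single i] at h1
    · simpa using h1
    · intro i' _ hne
      rw [if_neg, mul_zero]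
      intro h; exact hne (Fin.ext h.symm)
    · intro h; exact absurd (Finset.mem_univ _) h
  · intro p hp
    obtain ⟨⟨r, s⟩, _, rfl⟩ := Finset.mem_image.mp hp
    simp only [ne_eq, Nat.cast_eq_zero]
    positivity
  · rw [← hzi, Finset.card_product, Finset.card_range, hK, hL]
    have h1 : (q ^ 5 - 1) * q ^ 2 < q ^ 5 * q ^ 2 := by
      apply Nat.mul_lt_mul_of_pos_right _ (by positivity)
      have : 0 < q ^ 5 := by positivity
      omega
    refine h1.trans_le ?_
    rw [← pow_add, ← pow_add]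
    exact Nat.pow_le_pow_right hq0 (by norm_num)
  · intro i p hp
    obtain ⟨⟨r, s⟩, hrs, rfl⟩ := Finset.mem_image.mp hp
    simp only [Finset.mem_product, Finset.mem_range] at hrs
    have hq4 : q ≤ q ^ 4 := Nat.le_self_pow (by norm_num) q
    have hi1 : (i : ℕ) / q < q := by
      rw [Nat.div_lt_iff_lt_mul hq0]
      have h0 := i.2
      calc (i : ℕ) < L := h0
        _ = q * q := by rw [hL]; ring
    have hi2 : (i : ℕ) % q < q := Nat.mod_lt _ hq0
    have h1 := hc (⟨(i : ℕ) / q + r, by omega⟩, ⟨(i : ℕ) % q + s, by omega⟩)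
    simp only at h1
    rw [← Equiv.sum_comp finProdFinEquiv, Fintype.sum_prod_type, Finset.sum_comm] at h1
    refine Eq.trans ?_ h1
    refine Finset.sum_congr rfl fun l _ => ?_
    simp only [hP, eval_finsetSum, eval_mul, eval_C, eval_pow, eval_X, fv, Equiv.symm_apply_apply]
    rw [Finset.sum_mul]
    refine Finset.sum_congr rfl fun k _ => ?_
    have e1 : z i + ((r * n + s * m : ℕ) : ℝ) = ((((i : ℕ) / q + r) * n + ((i : ℕ) % q + s) * m : ℕ) : ℝ) := by
      simp only [hz]; push_cast; ring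
    have e2 : x i * ((a ^ r * b ^ s : ℕ) : ℝ) = ((a ^ ((i : ℕ) / q + r) * b ^ ((i : ℕ) % q + s) : ℕ) : ℝ) := by
      simp only [hx]; push_cast; ring
    rw [e1, e2]; ring


/-- the integer version of `fv` -/
def fvI (a b m n K L : ℕ) (p : ℕ × ℕ) (j : Fin (K * L)) : ℤ :=
  ((p.1 * n + p.2 * m : ℕ) : ℤ) ^ ((finProdFinEquiv.symm j).1 : ℕ) *
    ((a ^ p.1 * b ^ p.2 : ℕ) : ℤ) ^ ((finProdFinEquiv.symm j).2 : ℕ)

theorem fvI_cast (a b m n K L : ℕ) (p : ℕ × ℕ) (j : Fin (K * L)) :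
    ((fvI a b m n K L p j : ℤ) : ℝ) = fv a b m n K L p j := by
  simp only [fvI, fv]; push_cast; ring

/-- The main inequality: an integer determinant, not zero, with the analytic upper bound. -/
theorem core {a b m n q K L N K' : ℕ} (hK : K = q ^ 5) (hL : L = q ^ 2) (hN : N = K * L)
    (hK' : K' = (N / 2) * (N / 2)) (hq : 2 ≤ q) (hb : 2 ≤ b) (hba : b ≤ a)
    (hi : Indep a b) (hmn : Nat.Coprime m n) (hqm : q ^ 4 ≤ m) {β ρ δ : ℝ}
    (hβ : β = Real.log b / m) (hρ : ρ = 8 * q ^ 4 * (n + m))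
    (hδ : δ = Real.log a - n * β) (hδ1 : 4 * q ^ 6 * |δ| ≤ (1 / 4) ^ K') :
    1 ≤ (N.factorial : ℝ) * ((K' + 1 : ℝ) * (3 * (ρ ^ K * Real.exp (L * β * ρ)))) ^ N *
      (1 / 4) ^ K' := by
  classical
  subst hN
  have hq0 : 0 < q := by omega
  have ha : 2 ≤ a := hb.trans hba
  have hm0 : 0 < m := lt_of_lt_of_le (by positivity) hqm
  have hm0' : (0 : ℝ) < m := by exact_mod_cast hm0
  have hlb : 0 < Real.log b := Real.log_pos (by exact_mod_cast (by omega : 1 < b))
  have hβ0 : 0 < β := by rw [hβ]; positivity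
  have hqr : (2 : ℝ) ≤ q := by exact_mod_cast hq
  have hm1 : (1 : ℝ) ≤ m := by exact_mod_cast hm0
  have hρ1 : 1 ≤ ρ := by
    rw [hρ]
    have h1 : (1 : ℝ) ≤ (q : ℝ) ^ 4 := one_le_pow₀ (by linarith)
    have h2 : (0 : ℝ) ≤ n := Nat.cast_nonneg n
    nlinarith
  -- the nonvanishing minor
  obtain ⟨e, he⟩ := exists_minor
    (fun p : Fin (2 * q ^ 4) × Fin (2 * q ^ 4) => fv a b m n K L ((p.1 : ℕ), (p.2 : ℕ)))
    (fv_kernel hK hL hq ha hb hi hmn hqm)
  set A : Matrix (Fin (K * L)) (Fin (K * L)) ℤ := Matrix.of fun i j =>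
    fvI a b m n K L (((e i).1 : ℕ), ((e i).2 : ℕ)) j with hA
  have hAR : (Matrix.of fun i j => fv a b m n K L (((e i).1 : ℕ), ((e i).2 : ℕ)) j)
      = A.map (Int.cast : ℤ → ℝ) := by
    ext i j
    simp only [hA, Matrix.of_apply, Matrix.map_apply, fvI_cast]
  have hdetR : ((A.det : ℤ) : ℝ) = (A.map (Int.cast : ℤ → ℝ)).det := by
    have := (Int.castRingHom ℝ).map_det A
    simpa using this
  have hA0 : A.det ≠ 0 := by
    intro h
    apply he
    rw [hAR, ← hdetR, h, Int.cast_zero]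
  have hA1 : (1 : ℝ) ≤ |((A.det : ℤ) : ℝ)| := by
    rw [← Int.cast_abs]
    exact_mod_cast Int.one_le_abs hA0
  -- the analytic side
  set zz : Fin (K * L) → ℕ := fun j => ((e j).1 : ℕ) * n + ((e j).2 : ℕ) * m with hzz
  set w : Fin (K * L) → ℂ → ℂ := fun i z =>
    z ^ ((finProdFinEquiv.symm i).1 : ℕ) *
      Complex.exp ((((finProdFinEquiv.symm i).2 : ℕ) : ℂ) * β * z) with hw
  set W₀ : ℝ := ρ ^ K * Real.exp (L * β * ρ) with hW₀
  have hW₀0 : 0 ≤ W₀ := by positivity
  have hzle : ∀ j, (zz j : ℝ) ≤ ρ / 4 := by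
    intro j
    have h1 : (((e j).1 : ℕ) : ℝ) ≤ 2 * q ^ 4 := by exact_mod_cast (e j).1.2.le
    have h2 : (((e j).2 : ℕ) : ℝ) ≤ 2 * q ^ 4 := by exact_mod_cast (e j).2.2.le
    simp only [hzz]; push_cast
    rw [hρ]
    have h3 : (((e j).1 : ℕ) : ℝ) * n ≤ 2 * q ^ 4 * n := mul_le_mul_of_nonneg_right h1 (Nat.cast_nonneg n)
    have h4 : (((e j).2 : ℕ) : ℝ) * m ≤ 2 * q ^ 4 * m := mul_le_mul_of_nonneg_right h2 hm0'.le
    linarith
  have hwb : ∀ i, ∀ z ∈ Metric.closedBall (0 : ℂ) ρ, ‖w i z‖ ≤ W₀ := by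
    intro i z hz
    rw [mem_closedBall_zero_iff] at hz
    simp only [hw, norm_mul, norm_pow, Complex.norm_exp]
    have h1 : ‖z‖ ^ ((finProdFinEquiv.symm i).1 : ℕ) ≤ ρ ^ K :=
      (pow_le_pow_left₀ (norm_nonneg _) hz _).trans
        (pow_le_pow_right₀ hρ1 (finProdFinEquiv.symm i).1.2.le)
    have h2 : ((((finProdFinEquiv.symm i).2 : ℕ) : ℂ) * β * z).re ≤ L * β * ρ := by
      have h3 : ((((finProdFinEquiv.symm i).2 : ℕ) : ℂ) * β * z).re
          ≤ ‖((((finProdFinEquiv.symm i).2 : ℕ) : ℂ) * β * z)‖ := Complex.re_le_norm _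
      refine h3.trans ?_
      rw [norm_mul, norm_mul, Complex.norm_natCast, Complex.norm_real, Real.norm_eq_abs,
        abs_of_pos hβ0]
      have h4 : ((((finProdFinEquiv.symm i).2 : ℕ)) : ℝ) ≤ L := by
        exact_mod_cast (finProdFinEquiv.symm i).2.2.le
      gcongr
    exact mul_le_mul h1 (Real.exp_le_exp.mpr h2) (Real.exp_pos _).le (by positivity)
  set err : Fin (K * L) → Fin (K * L) → ℂ := fun j i =>
    ((fv a b m n K L (((e j).1 : ℕ), ((e j).2 : ℕ)) i : ℝ) : ℂ) - w i (zz j) with herr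
  have hla : Real.log a = n * β + δ := by rw [hδ]; ring
  have hbβ : Real.log b = m * β := by rw [hβ]; field_simp
  have ha0 : (0 : ℝ) < a := by exact_mod_cast (by omega : 0 < a)
  have hb0 : (0 : ℝ) < b := by exact_mod_cast (by omega : 0 < b)
  have herrb : ∀ j i, ‖err j i‖ ≤ W₀ * (1 / 4) ^ K' := by
    intro j i
    set r := ((e j).1 : ℕ) with hr
    set t := ((e j).2 : ℕ) with ht
    set l := ((finProdFinEquiv.symm i).2 : ℕ) with hl
    have h1 : ((a ^ r * b ^ t : ℕ) : ℝ) ^ l = Real.exp (l * β * (zz j)) * Real.exp (l * r * δ) := by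
      have e1 : ((a ^ r * b ^ t : ℕ) : ℝ) = Real.exp (r * Real.log a + t * Real.log b) := by
        push_cast
        rw [Real.exp_add, mul_comm (r : ℝ), mul_comm (t : ℝ), Real.exp_mul, Real.exp_mul,
          Real.exp_log ha0, Real.exp_log hb0, Real.rpow_natCast, Real.rpow_natCast]
      rw [e1, ← Real.exp_nat_mul, ← Real.exp_add]
      congr 1
      rw [hla, hbβ]
      simp only [hzz]; push_cast
      ring
    have h2 : fv a b m n K L (r, t) i = (zz j : ℝ) ^ ((finProdFinEquiv.symm i).1 : ℕ) *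
        Real.exp (l * β * (zz j)) * Real.exp (l * r * δ) := by
      simp only [fv]
      rw [h1]
      ring
    have h3 : w i (zz j) = (((zz j : ℝ) ^ ((finProdFinEquiv.symm i).1 : ℕ) *
        Real.exp (l * β * (zz j)) : ℝ) : ℂ) := by
      simp only [hw]; push_cast; rfl
    have h4 : err j i = ((((zz j : ℝ) ^ ((finProdFinEquiv.symm i).1 : ℕ) *
        Real.exp (l * β * (zz j))) * (Real.exp (l * r * δ) - 1) : ℝ) : ℂ) := by
      simp only [herr]
      rw [h3, ← Complex.ofReal_sub, h2]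
      congr 1; ring
    have h5 : |(zz j : ℝ) ^ ((finProdFinEquiv.symm i).1 : ℕ) * Real.exp (l * β * (zz j))| ≤ W₀ := by
      have h6 := hwb i (zz j) (by
        rw [mem_closedBall_zero_iff, Complex.norm_natCast]
        exact (hzle j).trans (by linarith))
      rw [h3, Complex.norm_real] at h6
      exact h6
    have hr' : (r : ℝ) ≤ 2 * q ^ 4 := by exact_mod_cast (e j).1.2.le
    have hl' : (l : ℝ) ≤ q ^ 2 := by
      have h0 : l ≤ q ^ 2 := (finProdFinEquiv.symm i).2.2.le.trans hL.le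
      exact_mod_cast h0
    have h7 : |(l : ℝ) * r * δ| ≤ 2 * q ^ 6 * |δ| := by
      rw [abs_mul, abs_mul, abs_of_nonneg (Nat.cast_nonneg l), abs_of_nonneg (Nat.cast_nonneg r)]
      have : (l : ℝ) * r ≤ q ^ 2 * (2 * q ^ 4) := by gcongr
      calc (l : ℝ) * r * |δ| ≤ (q ^ 2 * (2 * q ^ 4)) * |δ| := by gcongr
        _ = 2 * q ^ 6 * |δ| := by ring
    have h8 : (1 / 4 : ℝ) ^ K' ≤ 1 := pow_le_one₀ (by norm_num) (by norm_num)
    have h9 : |(l : ℝ) * r * δ| ≤ 1 := by linarith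
    have h10 := Real.abs_exp_sub_one_le h9
    rw [h4, Complex.norm_real, Real.norm_eq_abs, abs_mul]
    refine mul_le_mul h5 (h10.trans ?_) (abs_nonneg _) hW₀0
    linarith
  have hint := Pool.Agent.Lib.MP_524521_nt.RA.interp_det (N := K * L) (K := K') (h := 1) le_rfl
    (0 : ℂ) (r := ρ / 4) (ρ := ρ) (R' := ρ + 1) (W₀ := W₀) (by positivity) (by linarith)
    (by linarith) hW₀0 (fun _ => w)
    (fun _ i => by
      simp only [hw]
      fun_prop)
    (fun _ i => hwb i) (fun _ _ => 1) (fun _ _ => by simp) (fun j => (zz j : ℂ))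
    (fun j => by rw [sub_zero, Complex.norm_natCast]; exact hzle j) err
    (fun j i => by
      have : ρ / 4 / ρ = 1 / 4 := by field_simp
      rw [this]; exact herrb j i)
    (by rw [hK', mul_one])
  have hmat : (Matrix.of (fun i j => (∑ _l : Fin 1, (1 : ℂ) * w i (zz j)) + err j i))
      = (A.map (Int.cast : ℤ → ℂ)).transpose := by
    ext i j
    simp only [Matrix.of_apply, Matrix.transpose_apply, Matrix.map_apply, hA, herr,
      Finset.univ_unique, Finset.sum_singleton, one_mul]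
    rw [add_sub_cancel, ← fvI_cast]
    norm_cast
  rw [hmat, Matrix.det_transpose] at hint
  have hdetC : ((A.det : ℤ) : ℂ) = (A.map (Int.cast : ℤ → ℂ)).det := by
    have := (Int.castRingHom ℂ).map_det A
    simpa using this
  rw [← hdetC, Complex.norm_intCast] at hint
  have hr4 : ρ / 4 / ρ = 1 / 4 := by field_simp
  rw [hr4] at hint
  have hfin := hA1.trans hint
  have hKK : (K * L / 2) * (K * L / (2 * 1)) = K' := by rw [hK', mul_one]
  rw [hKK] at hfin
  have h21 : (2 * ((1 : ℕ) : ℝ) + 1) = 3 := by norm_num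
  rw [h21] at hfin
  exact hfin

end Pool.Agent.Lib.MP3c6092
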