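import Mathlib
import Pool.Agent.Lib.MP_3c6092_nt.Core

/-!
# Leech's problem: reductions
-/

namespace Pool.Agent.Lib.MP3c6092

/-- `a ^ m` and `b ^ n` are different and closer than `a ^ ((1 - 1/k) m - 1)`. -/
def Bad (k a b m n : ℕ) : Prop :=
  a ^ m ≠ b ^ n ∧ |(a : ℝ) ^ m - (b : ℝ) ^ n| < (a : ℝ) ^ ((1 - 1 / (k : ℝ)) * m - 1)

theorem pow_diff {x y : ℝ} (hx : 0 ≤ x) (hy : 0 ≤ y) {g : ℕ} (hg : 1 ≤ g) :
    |x - y| * x ^ (g - 1) ≤ |x ^ g - y ^ g| := by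
  have h1 := (Commute.all x y).mul_geom_sum₂ g
  rw [← h1, abs_mul]
  refine mul_le_mul_of_nonneg_left ?_ (abs_nonneg _)
  have h2 : x ^ (g - 1) ≤ ∑ i ∈ Finset.range g, x ^ i * y ^ (g - 1 - i) := by
    have h3 := Finset.single_le_sum (s := Finset.range g) (f := fun i => x ^ i * y ^ (g - 1 - i))
      (fun i _ => by positivity) (Finset.mem_range.mpr (by omega : g - 1 < g))
    simpa using h3
  exact h2.trans (le_abs_self _)

/-- the strength used for counting -/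
theorem Bad.lt_pow {k a b m n : ℕ} (h : Bad k a b m n) (ha : 2 ≤ a) (hm : 1 ≤ m) :
    |(a : ℝ) ^ m - (b : ℝ) ^ n| < (a : ℝ) ^ (m - 1) := by
  have ha1 : (1 : ℝ) ≤ a := by exact_mod_cast (by omega : 1 ≤ a)
  refine h.2.trans_le ?_
  rw [← Real.rpow_natCast (a : ℝ) (m - 1)]
  apply Real.rpow_le_rpow_of_exponent_le ha1
  have h1 : ((m - 1 : ℕ) : ℝ) = m - 1 := by rw [Nat.cast_sub hm, Nat.cast_one]
  rw [h1]
  have h2 : (0 : ℝ) ≤ 1 / (k : ℝ) * m := by positivity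
  linarith [show (1 - 1 / (k : ℝ)) * m = m - 1 / (k : ℝ) * m by ring]

theorem Bad.lt_pow2 {k a b m n : ℕ} (h : Bad k a b m n) (ha : 2 ≤ a) (hk : 2 ≤ k) (hm : k ≤ m) :
    |(a : ℝ) ^ m - (b : ℝ) ^ n| < (a : ℝ) ^ (m - 2) := by
  have ha1 : (1 : ℝ) ≤ a := by exact_mod_cast (by omega : 1 ≤ a)
  refine h.2.trans_le ?_
  rw [← Real.rpow_natCast (a : ℝ) (m - 2)]
  apply Real.rpow_le_rpow_of_exponent_le ha1
  have h1 : ((m - 2 : ℕ) : ℝ) = m - 2 := by rw [Nat.cast_sub (by omega)]; norm_num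
  rw [h1]
  have hk0 : (0 : ℝ) < k := by exact_mod_cast (by omega : 0 < k)
  have h2 : (1 : ℝ) ≤ 1 / (k : ℝ) * m := by
    rw [one_div, inv_mul_eq_div, le_div_iff₀ hk0, one_mul]
    exact_mod_cast hm
  linarith [show (1 - 1 / (k : ℝ)) * m = m - 1 / (k : ℝ) * m by ring]

/-- `m ≥ 2` -/
theorem Bad.two_le_m {k a b m n : ℕ} (h : Bad k a b m n) (ha : 2 ≤ a) (hm : 1 ≤ m) : 2 ≤ m := by
  by_contra hc
  have h1 : m = 1 := by omega
  subst h1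
  have h2 := h.lt_pow ha le_rfl
  have h3 : |((a : ℤ) ^ 1 - (b : ℤ) ^ n)| < 1 := by
    have h4 : (((|(a : ℤ) ^ 1 - (b : ℤ) ^ n| : ℤ)) : ℝ) < 1 := by
      push_cast
      simpa using h2
    exact_mod_cast h4
  have h5 : (a : ℤ) ^ 1 = (b : ℤ) ^ n := by
    have := Int.abs_lt_one_iff.mp h3
    linarith
  exact h.1 (by exact_mod_cast h5)

/-- `b ≥ 2` -/
theorem Bad.two_le_b {k a b m n : ℕ} (h : Bad k a b m n) (hb : 1 ≤ b) (hba : b < a) (hm : 1 ≤ m) :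
    2 ≤ b := by
  by_contra hc
  have h1 : b = 1 := by omega
  subst h1
  have ha : 2 ≤ a := by omega
  have h2 := h.lt_pow ha hm
  have har : (2 : ℝ) ≤ a := by exact_mod_cast ha
  have h3 : (a : ℝ) ^ m = a * (a : ℝ) ^ (m - 1) := by
    rw [← pow_succ']; congr 1; omega
  have h4 : (1 : ℝ) ≤ (a : ℝ) ^ (m - 1) := one_le_pow₀ (by linarith)
  have h5 := (abs_lt.mp h2).2
  rw [Nat.cast_one, one_pow, h3] at h5
  nlinarith

/-- `n > m` -/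
theorem Bad.lt_n {k a b m n : ℕ} (h : Bad k a b m n) (hb : 1 ≤ b) (hba : b < a) (hm : 1 ≤ m) :
    m < n := by
  by_contra hc
  have hc' : n ≤ m := by omega
  have ha : 2 ≤ a := by omega
  have h2 := h.lt_pow ha hm
  have hb1 : (1 : ℝ) ≤ b := by exact_mod_cast hb
  have hba' : (b : ℝ) + 1 ≤ a := by exact_mod_cast hba
  have h3 : (b : ℝ) ^ n ≤ (b : ℝ) ^ m := pow_le_pow_right₀ hb1 hc'
  have h4 : (b : ℝ) ^ m = b * (b : ℝ) ^ (m - 1) := by rw [← pow_succ']; congr 1; omega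
  have h5 : (a : ℝ) ^ m = a * (a : ℝ) ^ (m - 1) := by rw [← pow_succ']; congr 1; omega
  have h6 : (b : ℝ) ^ (m - 1) ≤ (a : ℝ) ^ (m - 1) := pow_le_pow_left₀ (by linarith) (by linarith) _
  have h7 := (abs_lt.mp h2).2
  have h8 : (0 : ℝ) ≤ (a : ℝ) ^ (m - 1) := by positivity
  have h9 : (b : ℝ) * (b : ℝ) ^ (m - 1) ≤ b * (a : ℝ) ^ (m - 1) := by gcongr
  nlinarith

/-- coprime exponents -/
theorem Bad.coprime {k a b m n : ℕ} (h : Bad k a b m n) (ha : 2 ≤ a) (hm : 1 ≤ m) (hn : 1 ≤ n) :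
    ∃ m' n' : ℕ, 1 ≤ m' ∧ 1 ≤ n' ∧ Nat.Coprime m' n' ∧ Bad k a b m' n' := by
  set g := Nat.gcd m n with hg
  have hg0 : 0 < g := Nat.gcd_pos_of_pos_left _ (by omega)
  obtain ⟨m', hm'⟩ := Nat.gcd_dvd_left m n
  obtain ⟨n', hn'⟩ := Nat.gcd_dvd_right m n
  rw [← hg] at hm' hn'
  have hm'0 : 1 ≤ m' := by
    rcases Nat.eq_zero_or_pos m' with h0 | h0
    · rw [h0] at hm'; omega
    · exact h0
  have hn'0 : 1 ≤ n' := by
    rcases Nat.eq_zero_or_pos n' with h0 | h0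
    · rw [h0] at hn'; omega
    · exact h0
  refine ⟨m', n', hm'0, hn'0, ?_, ?_, ?_⟩
  · have h1 : Nat.gcd (g * m') (g * n') = g := by rw [← hm', ← hn']
    rw [Nat.gcd_mul_left] at h1
    exact Nat.eq_of_mul_eq_mul_left hg0 (by rw [h1, mul_one])
  · intro he
    apply h.1
    rw [hm', hn', mul_comm g m', mul_comm g n', pow_mul, pow_mul, he]
  · have ha0 : (0 : ℝ) < a := by exact_mod_cast (by omega : 0 < a)
    have ha1 : (1 : ℝ) ≤ a := by exact_mod_cast (by omega : 1 ≤ a)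
    have h1 := pow_diff (x := (a : ℝ) ^ m') (y := (b : ℝ) ^ n') (by positivity) (by positivity) hg0
    rw [← pow_mul, ← pow_mul, ← pow_mul, mul_comm m' g, mul_comm n' g, ← hm', ← hn'] at h1
    have h2 := h1.trans_lt h.2
    have h3 : (0 : ℝ) < (a : ℝ) ^ (m' * (g - 1)) := by positivity
    rw [← lt_div_iff₀ h3] at h2
    refine h2.trans_le ?_
    rw [← Real.rpow_natCast (a : ℝ) (m' * (g - 1)), ← Real.rpow_sub ha0]
    apply Real.rpow_le_rpow_of_exponent_le ha1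
    have e1 : ((m' * (g - 1) : ℕ) : ℝ) = m' * (g - 1) := by
      rw [Nat.cast_mul, Nat.cast_sub hg0, Nat.cast_one]
    have e2 : (m : ℝ) = g * m' := by exact_mod_cast hm'
    rw [e1, e2]
    have hg1 : (1 : ℝ) ≤ g := by exact_mod_cast hg0
    have hk0 : (0 : ℝ) ≤ 1 / (k : ℝ) * m' := by positivity
    nlinarith

/-- two powers of one base -/
theorem pow_gap {a b m n c u v : ℕ} (hc : 2 ≤ c) (ha : a = c ^ u) (hb : b = c ^ v)
    (hne : a ^ m ≠ b ^ n) : (a : ℝ) ^ m / 2 ≤ |(a : ℝ) ^ m - (b : ℝ) ^ n| := by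
  have hcr : (2 : ℝ) ≤ c := by exact_mod_cast hc
  have e1 : (a : ℝ) ^ m = (c : ℝ) ^ (u * m) := by rw [ha]; push_cast; rw [pow_mul]
  have e2 : (b : ℝ) ^ n = (c : ℝ) ^ (v * n) := by rw [hb]; push_cast; rw [pow_mul]
  have hne' : u * m ≠ v * n := by
    intro h
    apply hne
    rw [ha, hb, ← pow_mul, ← pow_mul, h]
  rw [e1, e2]
  rcases lt_or_gt_of_ne hne' with h | h
  · obtain ⟨t, ht⟩ := Nat.exists_eq_add_of_lt h
    rw [ht, pow_succ, pow_add]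
    have h1 : (1 : ℝ) ≤ (c : ℝ) ^ t := one_le_pow₀ (by linarith)
    have h2 : (0 : ℝ) < (c : ℝ) ^ (u * m) := by positivity
    have h3 : (c : ℝ) ^ (u * m) * 2 ≤ (c : ℝ) ^ (u * m) * (c : ℝ) ^ t * c := by
      calc (c : ℝ) ^ (u * m) * 2 = (c : ℝ) ^ (u * m) * 1 * 2 := by ring
        _ ≤ (c : ℝ) ^ (u * m) * (c : ℝ) ^ t * c := by gcongr
    rw [abs_sub_comm]
    refine le_trans ?_ (le_abs_self _)
    linarith
  · obtain ⟨t, ht⟩ := Nat.exists_eq_add_of_lt h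
    rw [ht, pow_succ, pow_add]
    have h1 : (1 : ℝ) ≤ (c : ℝ) ^ t := one_le_pow₀ (by linarith)
    have h2 : (0 : ℝ) < (c : ℝ) ^ (v * n) := by positivity
    have h3 : (c : ℝ) ^ (v * n) * 2 ≤ (c : ℝ) ^ (v * n) * (c : ℝ) ^ t * c := by
      calc (c : ℝ) ^ (v * n) * 2 = (c : ℝ) ^ (v * n) * 1 * 2 := by ring
        _ ≤ (c : ℝ) ^ (v * n) * (c : ℝ) ^ t * c := by gcongr
    refine le_trans ?_ (le_abs_self _)
    linarith

/-- `a ^ i = b ^ j` makes `a`, `b` powers of one number -/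
theorem common_base {a b i j : ℕ} (ha : 2 ≤ a) (hij : ¬ (i = 0 ∧ j = 0))
    (h : a ^ i = b ^ j) : ∃ c u v : ℕ, 2 ≤ c ∧ a = c ^ u ∧ b = c ^ v := by
  obtain ⟨c, hc1, hc2⟩ := Nat.exists_eq_pow_of_pow_eq_pow (by omega : i ≠ 0 ∨ j ≠ 0) h
  refine ⟨c, _, _, ?_, hc1, hc2⟩
  by_contra hc
  have h1 : c = 0 ∨ c = 1 := by omega
  rcases h1 with h1 | h1
  · rw [h1] at hc1
    rcases Nat.eq_zero_or_pos (j / Nat.gcd i j) with h0 | h0
    · rw [h0, pow_zero] at hc1; omega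
    · rw [Nat.zero_pow h0] at hc1; omega
  · rw [h1, one_pow] at hc1; omega

/-- multiplicative independence -/
theorem Bad.indep {k a b m n : ℕ} (h : Bad k a b m n) (ha : 2 ≤ a) (hm : 1 ≤ m) : Indep a b := by
  intro i j hij
  by_contra hc
  obtain ⟨c, u, v, hc2, hu, hv⟩ := common_base ha hc hij
  have h1 := pow_gap hc2 hu hv h.1
  have h2 := h.lt_pow ha hm
  have h3 : (a : ℝ) ^ m = a * (a : ℝ) ^ (m - 1) := by rw [← pow_succ']; congr 1; omega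
  have har : (2 : ℝ) ≤ a := by exact_mod_cast ha
  have h4 : (0 : ℝ) < (a : ℝ) ^ (m - 1) := by positivity
  rw [h3] at h1 h2
  nlinarith

/-- at most one `a` for each `b` -/
theorem unique_a {a c b m n : ℕ} (hm : 2 ≤ m) (ha : 1 ≤ a) (hac : a < c)
    (h1 : |(a : ℝ) ^ m - (b : ℝ) ^ n| < (a : ℝ) ^ (m - 1))
    (h2 : |(c : ℝ) ^ m - (b : ℝ) ^ n| < (c : ℝ) ^ (m - 1)) : False := by
  have har : (1 : ℝ) ≤ a := by exact_mod_cast ha
  have hcr : (a : ℝ) + 1 ≤ c := by exact_mod_cast hac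
  obtain ⟨t, rfl⟩ := Nat.exists_eq_add_of_le hm
  have e1 : 2 + t - 1 = t + 1 := by omega
  rw [e1] at h1 h2
  have h3 := (abs_lt.mp h1).1
  have h4 := (abs_lt.mp h2).2
  have e2 : (a : ℝ) ^ (2 + t) = a * (a : ℝ) ^ (t + 1) := by ring
  have e3 : (c : ℝ) ^ (2 + t) = c * (c : ℝ) ^ (t + 1) := by ring
  have e4 : (c : ℝ) ^ (t + 1) = c * (c : ℝ) ^ t := by ring
  have e5 : (a : ℝ) ^ (t + 1) = a * (a : ℝ) ^ t := by ring
  have h5 : (a : ℝ) ^ t ≤ (c : ℝ) ^ t := pow_le_pow_left₀ (by linarith) (by linarith) _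
  have h6 : (0 : ℝ) < (a : ℝ) ^ t := by positivity
  have h7 : (a : ℝ) ^ (t + 1) + (a : ℝ) ^ t ≤ (c : ℝ) ^ (t + 1) := by
    rw [e4, e5]
    calc (a : ℝ) * (a : ℝ) ^ t + (a : ℝ) ^ t = (a + 1) * (a : ℝ) ^ t := by ring
      _ ≤ c * (c : ℝ) ^ t := by gcongr
  rw [e2] at h3
  rw [e3] at h4
  have h8 : (a + 1) * (c : ℝ) ^ (t + 1) ≤ c * (c : ℝ) ^ (t + 1) := by gcongr
  have h9 : (a : ℝ) * ((a : ℝ) ^ (t + 1) + (a : ℝ) ^ t) ≤ a * (c : ℝ) ^ (t + 1) := by gcongr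
  rw [mul_add, ← e5] at h9
  linarith

/-- `b ^ n ≤ 2 a ^ m` -/
theorem b_le {a b m n : ℕ} (ha : 1 ≤ a)
    (h1 : |(a : ℝ) ^ m - (b : ℝ) ^ n| < (a : ℝ) ^ (m - 1)) : (b : ℝ) ^ n ≤ 2 * (a : ℝ) ^ m := by
  have har : (1 : ℝ) ≤ a := by exact_mod_cast ha
  have h2 := (abs_lt.mp h1).1
  have h3 : (a : ℝ) ^ (m - 1) ≤ (a : ℝ) ^ m := pow_le_pow_right₀ har (by omega)
  linarith

end Pool.Agent.Lib.MP3c6092
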