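import Mathlib
import Pool.Agent.Lib.MP_3c6092_nt.Red

/-!
# Leech's problem: three points
-/

namespace Pool.Agent.Lib.MP3c6092

open Set

theorem convex_diff {g : ℝ → ℝ} {s : Set ℝ} (hg : ConvexOn ℝ s g) {x y z : ℝ} (hx : x ∈ s) (hz : z ∈ s)
    (hxy : x < y) (hyz : y < z) : 0 ≤ (z - y) * g x - (z - x) * g y + (y - x) * g z := by
  have h0 : 0 < z - x := by linarith
  have p1 : 0 ≤ (z - y) / (z - x) := div_nonneg (by linarith) (by linarith)
  have p2 : 0 ≤ (y - x) / (z - x) := div_nonneg (by linarith) (by linarith)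
  have p3 : (z - y) / (z - x) + (y - x) / (z - x) = 1 := by field_simp; ring
  have h1 := hg.2 hx hz p1 p2 p3
  simp only [smul_eq_mul] at h1
  have h2 : (z - y) / (z - x) * x + (y - x) / (z - x) * z = y := by field_simp; ring
  rw [h2] at h1
  have h3 := mul_le_mul_of_nonneg_left h1 h0.le
  have h4 : (z - x) * ((z - y) / (z - x) * g x + (y - x) / (z - x) * g z)
      = (z - y) * g x + (y - x) * g z := by field_simp
  rw [h4] at h3
  linarith

theorem hasDeriv_rpow {θ x : ℝ} (hx : 0 < x) : HasDerivAt (fun x : ℝ => x ^ θ) (θ * x ^ (θ - 1)) x :=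
  Real.hasDerivAt_rpow_const (Or.inl hx.ne')

/-- second differences of `x ^ θ` -/
theorem second_diff {θ X : ℝ} (h1 : 1 < θ) (h2 : θ < 2) (hX : 0 < X) {x y z : ℝ} (hx : X ≤ x)
    (hxy : x < y) (hyz : y < z) (hz : z ≤ 2 * X) :
    (θ - 1) * (2 * X) ^ (θ - 2) / 2 * ((y - x) * (z - y) * (z - x)) ≤
      (z - y) * x ^ θ - (z - x) * y ^ θ + (y - x) * z ^ θ ∧
    (z - y) * x ^ θ - (z - x) * y ^ θ + (y - x) * z ^ θ ≤
      X ^ (θ - 2) * ((y - x) * (z - y) * (z - x)) := by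
  have hsub : ∀ t ∈ interior (Icc X (2 * X)), 0 < t := by
    intro t ht
    rw [interior_Icc] at ht
    exact hX.trans ht.1
  have hd1 : ∀ (c : ℝ), ∀ t ∈ interior (Icc X (2 * X)),
      HasDerivWithinAt (fun x : ℝ => x ^ θ - c / 2 * x ^ 2) (θ * t ^ (θ - 1) - c * t)
        (interior (Icc X (2 * X))) t := by
    intro c t ht
    have h3 := (hasDeriv_rpow (θ := θ) (hsub t ht))
    have h4 : HasDerivAt (fun x : ℝ => c / 2 * x ^ 2) (c * t) t := by
      have h5 := ((hasDerivAt_pow 2 t).const_mul (c / 2))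
      have e5 : c / 2 * (((2 : ℕ) : ℝ) * t ^ (2 - 1)) = c * t := by norm_num; ring
      rw [e5] at h5
      exact h5
    exact (h3.sub h4).hasDerivWithinAt
  have hd2 : ∀ (c : ℝ), ∀ t ∈ interior (Icc X (2 * X)),
      HasDerivWithinAt (fun t : ℝ => θ * t ^ (θ - 1) - c * t) (θ * ((θ - 1) * t ^ (θ - 2)) - c)
        (interior (Icc X (2 * X))) t := by
    intro c t ht
    have h3 := (hasDeriv_rpow (θ := θ - 1) (hsub t ht)).const_mul θ
    have h4 : HasDerivAt (fun x : ℝ => c * x) c t := by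
      simpa using (hasDerivAt_id t).const_mul c
    have h5 := (h3.sub h4).hasDerivWithinAt (s := interior (Icc X (2 * X)))
    have e : θ - 1 - 1 = θ - 2 := by ring
    rw [e] at h5
    exact h5
  have hcont : ∀ (c : ℝ), ContinuousOn (fun x : ℝ => x ^ θ - c / 2 * x ^ 2) (Icc X (2 * X)) := by
    intro c
    apply ContinuousOn.sub
    · intro t ht
      exact (Real.continuousAt_rpow_const t θ (Or.inr (by linarith))).continuousWithinAt
    · fun_prop
  have hxm : x ∈ Icc X (2 * X) := ⟨hx, by linarith⟩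
  have hzm : z ∈ Icc X (2 * X) := ⟨by linarith, hz⟩
  constructor
  · set c := (θ - 1) * (2 * X) ^ (θ - 2) with hc
    have hconv : ConvexOn ℝ (Icc X (2 * X)) (fun x : ℝ => x ^ θ - c / 2 * x ^ 2) := by
      refine convexOn_of_hasDerivWithinAt2_nonneg (convex_Icc _ _) (hcont c) (hd1 c) (hd2 c) ?_
      intro t ht
      have ht0 := hsub t ht
      rw [interior_Icc] at ht
      have h6 : (2 * X) ^ (θ - 2) ≤ t ^ (θ - 2) :=
        Real.rpow_le_rpow_of_nonpos ht0 ht.2.le (by linarith)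
      have h7 : 0 ≤ (2 * X) ^ (θ - 2) := by positivity
      have h8 : (θ - 1) * (2 * X) ^ (θ - 2) ≤ (θ - 1) * t ^ (θ - 2) :=
        mul_le_mul_of_nonneg_left h6 (by linarith)
      have h9 : 0 ≤ (θ - 1) * t ^ (θ - 2) := mul_nonneg (by linarith) (h7.trans h6)
      rw [hc]
      nlinarith
    have := convex_diff hconv hxm hzm hxy hyz
    nlinarith
  · set c := 2 * X ^ (θ - 2) with hc
    have hconv : ConvexOn ℝ (Icc X (2 * X)) (fun x : ℝ => -(x ^ θ - c / 2 * x ^ 2)) := by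
      refine convexOn_of_hasDerivWithinAt2_nonneg (f' := fun t => -(θ * t ^ (θ - 1) - c * t))
        (f'' := fun t => -(θ * ((θ - 1) * t ^ (θ - 2)) - c)) (convex_Icc _ _) (hcont c).neg
        (fun t ht => (hd1 c t ht).neg) (fun t ht => (hd2 c t ht).neg) ?_
      intro t ht
      have ht0 := hsub t ht
      rw [interior_Icc] at ht
      have h6 : t ^ (θ - 2) ≤ X ^ (θ - 2) :=
        Real.rpow_le_rpow_of_nonpos hX ht.1.le (by linarith)
      have h7 : 0 ≤ t ^ (θ - 2) := by positivity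
      have h8 : θ * (θ - 1) ≤ 2 := by nlinarith
      have h10 : θ * ((θ - 1) * t ^ (θ - 2)) ≤ 2 * X ^ (θ - 2) := by
        calc θ * ((θ - 1) * t ^ (θ - 2)) = θ * (θ - 1) * t ^ (θ - 2) := by ring
          _ ≤ 2 * X ^ (θ - 2) := mul_le_mul h8 h6 h7 (by norm_num)
      rw [hc]
      linarith
    have := convex_diff hconv hxm hzm hxy hyz
    nlinarith


/-- No three points: the determinant would be an integer between `0` and `1`. -/
theorem no_triple {m : ℕ} {θ X : ℝ} (hm : 1 ≤ m) (h1 : 1 < θ) (h2 : θ < 2) (hθ : 1 / (m : ℝ) ≤ θ - 1)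
    (hX : 64 ≤ X) {b1 b2 b3 a1 a2 a3 : ℕ} (hb1 : X ≤ b1) (h12 : b1 < b2) (h23 : b2 < b3)
    (hb3 : (b3 : ℝ) ≤ 2 * X) (hlen : (b3 : ℝ) - b1 ≤ X ^ ((2 - θ) / 3))
    (hW : 16 * m + 2 + b1 ≤ b3)
    (e1 : |(a1 : ℝ) - (b1 : ℝ) ^ θ| < 2 * X ^ (-θ)) (e2 : |(a2 : ℝ) - (b2 : ℝ) ^ θ| < 2 * X ^ (-θ))
    (e3 : |(a3 : ℝ) - (b3 : ℝ) ^ θ| < 2 * X ^ (-θ)) : False := by
  have hX0 : 0 < X := by linarith
  have r12 : (b1 : ℝ) < b2 := by exact_mod_cast h12
  have r23 : (b2 : ℝ) < b3 := by exact_mod_cast h23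
  have r12' : (1 : ℝ) ≤ b2 - b1 := by
    have : (b1 : ℝ) + 1 ≤ b2 := by exact_mod_cast h12
    linarith
  have r23' : (1 : ℝ) ≤ b3 - b2 := by
    have : (b2 : ℝ) + 1 ≤ b3 := by exact_mod_cast h23
    linarith
  obtain ⟨hlo, hup⟩ := second_diff h1 h2 hX0 hb1 r12 r23 hb3
  set u : ℝ := (b2 : ℝ) - b1 with hu
  set v : ℝ := (b3 : ℝ) - b2 with hv
  have huv : (b3 : ℝ) - b1 = u + v := by rw [hu, hv]; ring
  rw [huv] at hlo hup hlen
  set Df : ℝ := v * (b1 : ℝ) ^ θ - (u + v) * (b2 : ℝ) ^ θ + u * (b3 : ℝ) ^ θ with hDf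
  set D : ℤ := ((b3 : ℤ) - b2) * a1 - ((b3 : ℤ) - b1) * a2 + ((b2 : ℤ) - b1) * a3 with hD
  have hDr : (D : ℝ) = v * a1 - (u + v) * a2 + u * a3 := by
    rw [hD, hu, hv]; push_cast; ring
  set E : ℝ := 2 * X ^ (-θ) with hE
  have hE0 : 0 < E := by positivity
  have hdiff : |(D : ℝ) - Df| < 2 * (u + v) * E := by
    have h3 : (D : ℝ) - Df = v * (a1 - (b1 : ℝ) ^ θ) - (u + v) * (a2 - (b2 : ℝ) ^ θ)
        + u * (a3 - (b3 : ℝ) ^ θ) := by rw [hDr, hDf]; ring
    rw [h3]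
    obtain ⟨p1, p2⟩ := abs_lt.mp e1
    obtain ⟨p3, p4⟩ := abs_lt.mp e2
    obtain ⟨p5, p6⟩ := abs_lt.mp e3
    have q1 : v * (a1 - (b1 : ℝ) ^ θ) < v * E := mul_lt_mul_of_pos_left p2 (by linarith)
    have q2 : v * (-E) < v * (a1 - (b1 : ℝ) ^ θ) := mul_lt_mul_of_pos_left p1 (by linarith)
    have q3 : (u + v) * (a2 - (b2 : ℝ) ^ θ) < (u + v) * E := mul_lt_mul_of_pos_left p4 (by linarith)
    have q4 : (u + v) * (-E) < (u + v) * (a2 - (b2 : ℝ) ^ θ) := mul_lt_mul_of_pos_left p3 (by linarith)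
    have q5 : u * (a3 - (b3 : ℝ) ^ θ) < u * E := mul_lt_mul_of_pos_left p6 (by linarith)
    have q6 : u * (-E) < u * (a3 - (b3 : ℝ) ^ θ) := mul_lt_mul_of_pos_left p5 (by linarith)
    rw [abs_lt]
    constructor <;> linarith
  obtain ⟨hd1, hd2⟩ := abs_lt.mp hdiff
  -- upper bound
  have hupper : (D : ℝ) < 1 := by
    have h4 : u * v * (u + v) ≤ (u + v) ^ 3 / 4 := by nlinarith [sq_nonneg (u - v)]
    have h5 : (u + v) ^ 3 ≤ X ^ (2 - θ) := by
      have h6 := pow_le_pow_left₀ (by linarith : (0 : ℝ) ≤ u + v) hlen 3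
      have h7 : (X ^ ((2 - θ) / 3)) ^ 3 = X ^ (2 - θ) := by
        rw [← Real.rpow_natCast, ← Real.rpow_mul hX0.le]
        congr 1; push_cast; ring
      rw [h7] at h6; exact h6
    have h8 : X ^ (θ - 2) * (u * v * (u + v)) ≤ 1 / 4 := by
      have h9 : X ^ (θ - 2) * X ^ (2 - θ) = 1 := by
        rw [← Real.rpow_add hX0]; simp
      have h10 : 0 < X ^ (θ - 2) := by positivity
      calc X ^ (θ - 2) * (u * v * (u + v)) ≤ X ^ (θ - 2) * (X ^ (2 - θ) / 4) := by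
            apply mul_le_mul_of_nonneg_left _ h10.le
            linarith
        _ = 1 / 4 := by rw [← mul_div_assoc, h9]
    have h11 : 2 * (u + v) * E ≤ 1 / 4 := by
      have h12 : (u + v) * X ^ (-θ) ≤ X ^ (-(2 / 3 : ℝ)) := by
        calc (u + v) * X ^ (-θ) ≤ X ^ ((2 - θ) / 3) * X ^ (-θ) := by gcongr
          _ = X ^ ((2 - θ) / 3 + -θ) := by rw [Real.rpow_add hX0]
          _ ≤ X ^ (-(2 / 3 : ℝ)) := Real.rpow_le_rpow_of_exponent_le (by linarith) (by linarith)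
      have h13 : X ^ (-(2 / 3 : ℝ)) ≤ 1 / 16 := by
        have h14 : X ^ (-(2 / 3 : ℝ)) ≤ (64 : ℝ) ^ (-(2 / 3 : ℝ)) :=
          Real.rpow_le_rpow_of_nonpos (by norm_num) hX (by norm_num)
        have h15 : (64 : ℝ) ^ (-(2 / 3 : ℝ)) = 1 / 16 := by
          rw [Real.rpow_neg (by norm_num), show (64 : ℝ) = 4 ^ (3 : ℝ) by norm_num, ← Real.rpow_mul (by norm_num)]
          norm_num
        linarith
      rw [hE]
      nlinarith
    linarith
  -- lower bound
  have hlower : (0 : ℝ) < D := by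
    have hm0 : (0 : ℝ) < m := by exact_mod_cast hm
    have hWr : 16 * (m : ℝ) + 2 ≤ u + v := by
      have : ((16 * m + 2 + b1 : ℕ) : ℝ) ≤ b3 := by exact_mod_cast hW
      push_cast at this
      linarith
    have h16 : (u + v) - 1 ≤ u * v := by nlinarith
    have h17 : (2 * X) ^ (θ - 2) ≥ X ^ (θ - 2) / 2 := by
      rw [Real.mul_rpow (by norm_num) hX0.le]
      have h18 : (1 / 2 : ℝ) ≤ (2 : ℝ) ^ (θ - 2) := by
        have h19 : (2 : ℝ) ^ (-1 : ℝ) ≤ (2 : ℝ) ^ (θ - 2) :=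
          Real.rpow_le_rpow_of_exponent_le (by norm_num) (by linarith)
        have h20 : (2 : ℝ) ^ (-1 : ℝ) = 1 / 2 := by
          rw [Real.rpow_neg_one]; norm_num
        rw [h20] at h19
        exact h19
      have h21 : 0 < X ^ (θ - 2) := by positivity
      nlinarith
    have h22 : X ^ (-θ) ≤ X ^ (θ - 2) := Real.rpow_le_rpow_of_exponent_le (by linarith) (by linarith)
    have h23 : (1 / (m : ℝ)) * (X ^ (θ - 2) / 2) / 2 * (u * v * (u + v)) ≤
        (θ - 1) * (2 * X) ^ (θ - 2) / 2 * (u * v * (u + v)) := by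
      gcongr
    have h24 : (1 / (m : ℝ)) * (X ^ (θ - 2) / 2) / 2 * (u * v * (u + v)) ≥
        4 * (u + v) * X ^ (θ - 2) := by
      have h25 : 16 * (m : ℝ) ≤ u * v := by linarith
      have h26 : 0 < X ^ (θ - 2) := by positivity
      have h27 : (1 / (m : ℝ)) * (16 * m) = 16 := by field_simp
      have h28 : 16 ≤ (1 / (m : ℝ)) * (u * v) := by
        rw [← h27]; gcongr
      calc (1 / (m : ℝ)) * (X ^ (θ - 2) / 2) / 2 * (u * v * (u + v))
          = ((1 / (m : ℝ)) * (u * v)) * (X ^ (θ - 2) / 4 * (u + v)) := by ring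
        _ ≥ 16 * (X ^ (θ - 2) / 4 * (u + v)) := by gcongr
        _ = 4 * (u + v) * X ^ (θ - 2) := by ring
    have h29 : 2 * (u + v) * E ≤ 4 * (u + v) * X ^ (θ - 2) := by
      rw [hE]
      calc 2 * (u + v) * (2 * X ^ (-θ)) = 4 * (u + v) * X ^ (-θ) := by ring
        _ ≤ 4 * (u + v) * X ^ (θ - 2) := by gcongr
    linarith
  have c1 : D < 1 := by exact_mod_cast hupper
  have c2 : 0 < D := by exact_mod_cast hlower
  omega

end Pool.Agent.Lib.MP3c6092
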