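import Mathlib
import Pool.Agent.Lib.MP_3c6092_nt.Triple

/-!
# Leech's problem: counting for one pair of exponents
-/

namespace Pool.Agent.Lib.MP3c6092

open Finset

theorem interval_count (F : Finset ℕ) {X ℓ : ℝ} (hℓ : 0 < ℓ) (hX : 0 ≤ X) (W : ℕ)
    (hF : ∀ b ∈ F, X ≤ b ∧ (b : ℝ) ≤ 2 * X)
    (hW : ∀ G ⊆ F, (∀ b ∈ G, ∀ c ∈ G, (b : ℝ) - c ≤ ℓ) → G.card ≤ W) :
    (F.card : ℝ) ≤ (X / ℓ + 1) * W := by
  classical
  set φ : ℕ → ℕ := fun b => ⌊((b : ℝ) - X) / ℓ⌋₊ with hφ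
  have h1 : F.card ≤ W * (F.image φ).card := by
    refine Finset.card_le_mul_card_image F W ?_
    intro t _
    refine hW _ (Finset.filter_subset _ _) ?_
    intro b hb c hc
    rw [Finset.mem_filter] at hb hc
    have hb0 : 0 ≤ ((b : ℝ) - X) / ℓ := div_nonneg (by linarith [(hF b hb.1).1]) hℓ.le
    have hc0 : 0 ≤ ((c : ℝ) - X) / ℓ := div_nonneg (by linarith [(hF c hc.1).1]) hℓ.le
    have hb1 : ((b : ℝ) - X) / ℓ < t + 1 := by
      have := Nat.lt_floor_add_one (((b : ℝ) - X) / ℓ)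
      rw [← hb.2]; exact this
    have hc1 : (t : ℝ) ≤ ((c : ℝ) - X) / ℓ := by
      rw [← hc.2]; exact Nat.floor_le hc0
    rw [div_lt_iff₀ hℓ] at hb1
    rw [le_div_iff₀ hℓ] at hc1
    linarith
  have h2 : F.image φ ⊆ range (⌊X / ℓ⌋₊ + 1) := by
    intro t ht
    obtain ⟨b, hb, rfl⟩ := Finset.mem_image.mp ht
    rw [Finset.mem_range, Nat.lt_succ_iff]
    apply Nat.floor_le_floor
    gcongr
    linarith [(hF b hb).2]
  have h3 : ((F.image φ).card : ℝ) ≤ X / ℓ + 1 := by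
    have h4 := Finset.card_le_card h2
    rw [Finset.card_range] at h4
    have h5 : ((F.image φ).card : ℝ) ≤ ((⌊X / ℓ⌋₊ + 1 : ℕ) : ℝ) := by exact_mod_cast h4
    have h6 : (⌊X / ℓ⌋₊ : ℝ) ≤ X / ℓ := Nat.floor_le (by positivity)
    push_cast at h5
    linarith
  calc (F.card : ℝ) ≤ ((W * (F.image φ).card : ℕ) : ℝ) := by exact_mod_cast h1
    _ = (F.image φ).card * W := by push_cast; ring
    _ ≤ (X / ℓ + 1) * W := by gcongr

theorem close {a b m n : ℕ} (ha : 2 ≤ a) (hm : 2 ≤ m)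
    (h : |(a : ℝ) ^ m - (b : ℝ) ^ n| < (a : ℝ) ^ (m - 2)) :
    |(a : ℝ) - (b : ℝ) ^ ((n : ℝ) / m)| < 1 / a := by
  have ha0 : (0 : ℝ) < a := by exact_mod_cast (by omega : 0 < a)
  have hm0 : (m : ℝ) ≠ 0 := by
    have : m ≠ 0 := by omega
    exact_mod_cast this
  have hy : ((b : ℝ) ^ ((n : ℝ) / m)) ^ m = (b : ℝ) ^ n := by
    rw [← Real.rpow_natCast, ← Real.rpow_mul (Nat.cast_nonneg b), div_mul_cancel₀ _ hm0, Real.rpow_natCast]
  have h1 := pow_diff (x := (a : ℝ)) (y := (b : ℝ) ^ ((n : ℝ) / m)) ha0.le (by positivity) (g := m) (by omega)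
  rw [hy] at h1
  have h2 := h1.trans_lt h
  have h3 : (a : ℝ) ^ (m - 1) = a * (a : ℝ) ^ (m - 2) := by rw [← pow_succ']; congr 1; omega
  have h4 : (0 : ℝ) < (a : ℝ) ^ (m - 2) := by positivity
  rw [h3] at h2
  rw [lt_div_iff₀ ha0]
  have h5 : |(a : ℝ) - (b : ℝ) ^ ((n : ℝ) / m)| * a * (a : ℝ) ^ (m - 2) < 1 * (a : ℝ) ^ (m - 2) := by
    linarith
  exact lt_of_mul_lt_mul_right h5 h4.le

/-- tolerance at scale `X` -/
theorem close_X {a b m n : ℕ} {X : ℝ} (ha : 2 ≤ a) (hm : 2 ≤ m) (hmn : m < n) (hX : 64 ≤ X) (hb : X ≤ b)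
    (h : |(a : ℝ) ^ m - (b : ℝ) ^ n| < (a : ℝ) ^ (m - 2)) :
    |(a : ℝ) - (b : ℝ) ^ ((n : ℝ) / m)| < 2 * X ^ (-((n : ℝ) / m)) := by
  have h1 := close ha hm h
  have ha2 : (2 : ℝ) ≤ a := by exact_mod_cast ha
  have hX0 : 0 < X := by linarith
  have hm0 : (0 : ℝ) < m := by exact_mod_cast (by omega : 0 < m)
  set θ : ℝ := (n : ℝ) / m with hθ
  have hθ1 : 1 ≤ θ := by
    rw [hθ, le_div_iff₀ hm0, one_mul]; exact_mod_cast hmn.le
  have h2 : X ^ θ ≤ (b : ℝ) ^ θ := Real.rpow_le_rpow hX0.le hb (by linarith)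
  have h3 : X ≤ X ^ θ := by
    calc X = X ^ (1 : ℝ) := (Real.rpow_one X).symm
      _ ≤ X ^ θ := Real.rpow_le_rpow_of_exponent_le (by linarith) hθ1
  have h4 : (1 : ℝ) / a ≤ 1 / 2 := one_div_le_one_div_of_le (by norm_num) ha2
  have h5 : X ^ θ / 2 ≤ a := by
    have := (abs_lt.mp h1).1
    linarith
  refine h1.trans_le ?_
  rw [Real.rpow_neg hX0.le]
  have h6 : 0 < X ^ θ := by positivity
  calc (1 : ℝ) / a ≤ 1 / (X ^ θ / 2) := one_div_le_one_div_of_le (by positivity) h5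
    _ = 2 * (X ^ θ)⁻¹ := by field_simp

open Classical in
/-- the smaller bases -/
noncomputable def Bs (k m n N : ℕ) : Finset ℕ :=
  (Finset.range (N + 1)).filter (fun b => 1 ≤ b ∧ ∃ a, b < a ∧ a ≤ N ∧ Bad k a b m n)

theorem Bs_le {k m n N b : ℕ} (hm : 1 ≤ m) (hn : 1 ≤ n) (hb : b ∈ Bs k m n N) :
    (b : ℝ) ≤ (2 * (N : ℝ)) ^ ((m : ℝ) / n) := by
  simp only [Bs, mem_filter] at hb
  obtain ⟨_, hb1, a, hba, haN, hbad⟩ := hb
  have h1 := b_le (by omega : 1 ≤ a) (hbad.lt_pow (by omega) hm)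
  have haNr : (a : ℝ) ≤ N := by exact_mod_cast haN
  have h2 : (b : ℝ) ^ n ≤ (2 * (N : ℝ)) ^ m := by
    calc (b : ℝ) ^ n ≤ 2 * (a : ℝ) ^ m := h1
      _ ≤ 2 ^ m * (N : ℝ) ^ m := by
          have : (2 : ℝ) ≤ 2 ^ m := le_self_pow₀ (by norm_num) (by omega)
          gcongr
      _ = (2 * (N : ℝ)) ^ m := by rw [mul_pow]
  have hn0 : (n : ℝ) ≠ 0 := by
    have : n ≠ 0 := by omega
    exact_mod_cast this
  have h3 : ((b : ℝ) ^ n) ^ ((1 : ℝ) / n) ≤ ((2 * (N : ℝ)) ^ m) ^ ((1 : ℝ) / n) :=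
    Real.rpow_le_rpow (by positivity) h2 (by positivity)
  rw [← Real.rpow_natCast, ← Real.rpow_natCast, ← Real.rpow_mul (Nat.cast_nonneg b),
    ← Real.rpow_mul (by positivity), mul_one_div_cancel hn0, Real.rpow_one] at h3
  rw [show (m : ℝ) / n = m * (1 / n) by ring]
  exact h3

theorem card_Bs_triv {k m n N : ℕ} (hm : 1 ≤ m) (hn : 1 ≤ n) :
    ((Bs k m n N).card : ℝ) ≤ (2 * (N : ℝ)) ^ ((m : ℝ) / n) := by
  have h1 : Bs k m n N ⊆ Finset.Icc 1 ⌊(2 * (N : ℝ)) ^ ((m : ℝ) / n)⌋₊ := by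
    intro b hb
    have h2 := Bs_le hm hn hb
    simp only [Bs, mem_filter] at hb
    rw [Finset.mem_Icc]
    exact ⟨hb.2.1, Nat.le_floor h2⟩
  have h3 := Finset.card_le_card h1
  rw [Nat.card_Icc, Nat.add_sub_cancel] at h3
  calc ((Bs k m n N).card : ℝ) ≤ (⌊(2 * (N : ℝ)) ^ ((m : ℝ) / n)⌋₊ : ℝ) := by exact_mod_cast h3
    _ ≤ _ := Nat.floor_le (by positivity)

theorem fiber_bound {k m n N j : ℕ} (hk : 2 ≤ k) (hkm : k ≤ m) (hmn : m < n) (hn2 : n < 2 * m) (hj : 6 ≤ j)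
    (F : Finset ℕ) (hF : F ⊆ Bs k m n N) (hFj : ∀ b ∈ F, 2 ^ j ≤ b ∧ b < 2 ^ (j + 1)) :
    (F.card : ℝ) ≤ ((2 * (N : ℝ)) ^ (2 / 3 : ℝ) + 1) * ((16 * m + 4 : ℕ) : ℝ) := by
  classical
  rcases F.eq_empty_or_nonempty with h0 | ⟨b₀, hb₀⟩
  · rw [h0, Finset.card_empty, Nat.cast_zero]; positivity
  have hm2 : 2 ≤ m := hk.trans hkm
  have hm0 : (0 : ℝ) < m := by exact_mod_cast (by omega : 0 < m)
  set θ : ℝ := (n : ℝ) / m with hθ
  have hθ1 : 1 < θ := by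
    rw [hθ, lt_div_iff₀ hm0, one_mul]; exact_mod_cast hmn
  have hθ2 : θ < 2 := by
    rw [hθ, div_lt_iff₀ hm0]; exact_mod_cast hn2
  have hθm : 1 / (m : ℝ) ≤ θ - 1 := by
    have h1 : θ - 1 = ((n : ℝ) - m) / m := by rw [hθ]; field_simp
    rw [h1]
    have h2 : (m : ℝ) + 1 ≤ n := by exact_mod_cast hmn
    gcongr
    linarith
  set X : ℝ := (2 : ℝ) ^ j with hX
  have hX64 : 64 ≤ X := by
    calc (64 : ℝ) = 2 ^ 6 := by norm_num
      _ ≤ 2 ^ j := pow_le_pow_right₀ (by norm_num) hj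
  have hX0 : 0 < X := by linarith
  set ℓ : ℝ := X ^ ((2 - θ) / 3) with hℓ
  have hℓ0 : 0 < ℓ := by positivity
  have hFX : ∀ b ∈ F, X ≤ b ∧ (b : ℝ) ≤ 2 * X := by
    intro b hb
    obtain ⟨h1, h2⟩ := hFj b hb
    constructor
    · rw [hX]; exact_mod_cast h1
    · have : (b : ℝ) ≤ 2 ^ (j + 1) := by exact_mod_cast h2.le
      rw [hX]; rw [pow_succ] at this; linarith
  have hcount := interval_count F hℓ0 hX0.le (16 * m + 4) hFX ?_
  · refine hcount.trans ?_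
    have h1 : X / ℓ ≤ (2 * (N : ℝ)) ^ (2 / 3 : ℝ) := by
      have h2 : X / ℓ = X ^ ((1 + θ) / 3) := by
        rw [hℓ]
        nth_rewrite 1 [← Real.rpow_one X]
        rw [← Real.rpow_sub hX0]
        congr 1; ring
      have hn0 : (0 : ℝ) < n := by exact_mod_cast (by omega : 0 < n)
      have h3 : X ≤ (2 * (N : ℝ)) ^ (1 / θ) := by
        have h4 := Bs_le (by omega) (by omega) (hF hb₀)
        have h5 : (1 / θ) = (m : ℝ) / n := by rw [hθ]; field_simp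
        rw [h5]
        exact (hFX b₀ hb₀).1.trans h4
      have hN1 : (1 : ℝ) ≤ 2 * N := by
        have h6 := hF hb₀
        simp only [Bs, mem_filter, mem_range] at h6
        have : 1 ≤ N := by
          obtain ⟨_, _, a, h7, h8, _⟩ := h6
          omega
        have : (1 : ℝ) ≤ N := by exact_mod_cast this
        linarith
      rw [h2]
      calc X ^ ((1 + θ) / 3) ≤ ((2 * (N : ℝ)) ^ (1 / θ)) ^ ((1 + θ) / 3) :=
            Real.rpow_le_rpow hX0.le h3 (by linarith)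
        _ = (2 * (N : ℝ)) ^ (1 / θ * ((1 + θ) / 3)) := by rw [← Real.rpow_mul (by linarith)]
        _ ≤ (2 * (N : ℝ)) ^ (2 / 3 : ℝ) := by
            apply Real.rpow_le_rpow_of_exponent_le hN1
            have hθ0 : 0 < θ := by linarith
            rw [div_mul_div_comm, one_mul, div_le_div_iff₀ (by positivity) (by norm_num)]
            linarith
    gcongr
  · intro G hG hdiam
    by_contra hc
    push Not at hc
    have hne : G.Nonempty := Finset.card_pos.mp (by omega)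
    set b1 := G.min' hne with hb1
    set b3 := G.max' hne with hb3
    have hb1G : b1 ∈ G := G.min'_mem hne
    have hb3G : b3 ∈ G := G.max'_mem hne
    have hsub : G ⊆ Finset.Icc b1 b3 := by
      intro x hx
      rw [Finset.mem_Icc]
      exact ⟨G.min'_le x hx, G.le_max' x hx⟩
    have hcard := Finset.card_le_card hsub
    rw [Nat.card_Icc] at hcard
    obtain ⟨b2, hb2⟩ : ((G.erase b1).erase b3).Nonempty := by
      apply Finset.card_pos.mp
      have h1 := Finset.card_erase_add_one hb1G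
      have h2 : (G.erase b1).card - 1 ≤ ((G.erase b1).erase b3).card := Finset.pred_card_le_card_erase
      omega
    rw [Finset.mem_erase, Finset.mem_erase] at hb2
    obtain ⟨hne3, hne1, hb2G⟩ := hb2
    have h12 : b1 < b2 := lt_of_le_of_ne (G.min'_le b2 hb2G) (Ne.symm hne1)
    have h23 : b2 < b3 := lt_of_le_of_ne (G.le_max' b2 hb2G) hne3
    have hget : ∀ b ∈ G, ∃ a : ℕ, |(a : ℝ) - (b : ℝ) ^ θ| < 2 * X ^ (-θ) := by
      intro b hb
      have h3 := hF (hG hb)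
      simp only [Bs, mem_filter] at h3
      obtain ⟨_, hb1', a, hba, haN, hbad⟩ := h3
      exact ⟨a, close_X (by omega) hm2 hmn hX64 (hFX b (hG hb)).1 (hbad.lt_pow2 (by omega) hk hkm)⟩
    obtain ⟨a1, e1⟩ := hget b1 hb1G
    obtain ⟨a2, e2⟩ := hget b2 hb2G
    obtain ⟨a3, e3⟩ := hget b3 hb3G
    exact no_triple (by omega : 1 ≤ m) hθ1 hθ2 hθm hX64 (hFX b1 (hG hb1G)).1 h12 h23
      (hFX b3 (hG hb3G)).2 (hdiam b3 hb3G b1 hb1G) (by omega) e1 e2 e3

theorem card_Bs_log {k m n N : ℕ} (hk : 2 ≤ k) (hkm : k ≤ m) (hmn : m < n) (hn2 : n < 2 * m) :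
    ((Bs k m n N).card : ℝ) ≤ (((2 * (N : ℝ)) ^ (2 / 3 : ℝ) + 1) * ((16 * m + 4 : ℕ) : ℝ) + 64) *
      ((Nat.log 2 N + 1 : ℕ) : ℝ) := by
  classical
  set F := Bs k m n N with hF
  set V : ℝ := ((2 * (N : ℝ)) ^ (2 / 3 : ℝ) + 1) * ((16 * m + 4 : ℕ) : ℝ) + 64 with hV
  have hV0 : 0 ≤ V := by positivity
  have h1 : F.card ≤ ⌊V⌋₊ * (F.image (Nat.log 2)).card := by
    refine Finset.card_le_mul_card_image F _ ?_
    intro j _
    apply Nat.le_floor
    set Fj := F.filter (fun x => Nat.log 2 x = j) with hFj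
    have hmem : ∀ b ∈ Fj, 2 ^ j ≤ b ∧ b < 2 ^ (j + 1) := by
      intro b hb
      rw [hFj, mem_filter] at hb
      have hb0 : b ≠ 0 := by
        have := hb.1
        simp only [hF, Bs, mem_filter] at this
        omega
      constructor
      · rw [← hb.2]; exact Nat.pow_log_le_self 2 hb0
      · rw [← hb.2]; exact Nat.lt_pow_succ_log_self (by norm_num) b
    rcases Nat.lt_or_ge j 6 with hj | hj
    · have h2 : Fj ⊆ Finset.range 64 := by
        intro b hb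
        rw [Finset.mem_range]
        calc b < 2 ^ (j + 1) := (hmem b hb).2
          _ ≤ 2 ^ 6 := Nat.pow_le_pow_right (by norm_num) (by omega)
          _ = 64 := by norm_num
      have h3 := Finset.card_le_card h2
      rw [Finset.card_range] at h3
      have h4 : (Fj.card : ℝ) ≤ 64 := by exact_mod_cast h3
      have h5 : (0 : ℝ) ≤ ((2 * (N : ℝ)) ^ (2 / 3 : ℝ) + 1) * ((16 * m + 4 : ℕ) : ℝ) := by positivity
      rw [hV]; linarith
    · have h6 := fiber_bound hk hkm hmn hn2 hj Fj (Finset.filter_subset _ _) hmem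
      rw [hV]; linarith
  have h2 : F.image (Nat.log 2) ⊆ range (Nat.log 2 N + 1) := by
    intro j hj
    obtain ⟨b, hb, rfl⟩ := Finset.mem_image.mp hj
    rw [Finset.mem_range, Nat.lt_succ_iff]
    apply Nat.log_mono_right
    simp only [hF, Bs, mem_filter, mem_range] at hb
    omega
  have h3 := Finset.card_le_card h2
  rw [Finset.card_range] at h3
  calc (F.card : ℝ) ≤ ((⌊V⌋₊ * (F.image (Nat.log 2)).card : ℕ) : ℝ) := by exact_mod_cast h1
    _ = (⌊V⌋₊ : ℝ) * ((F.image (Nat.log 2)).card : ℝ) := by push_cast; ring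
    _ ≤ V * ((Nat.log 2 N + 1 : ℕ) : ℝ) := by
        have h4 : (⌊V⌋₊ : ℝ) ≤ V := Nat.floor_le hV0
        have h5 : ((F.image (Nat.log 2)).card : ℝ) ≤ ((Nat.log 2 N + 1 : ℕ) : ℝ) := by exact_mod_cast h3
        gcongr

end Pool.Agent.Lib.MP3c6092
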