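import Mathlib
import Pool.Agent.Lib.MP_3c6092_nt.Core

/-!
# Leech's problem: powers of two bases of polynomial size are far apart
-/

namespace Pool.Agent.Lib.MP3c6092

open Filter Topology

theorem halfsq {N K' : ℕ} (hK' : K' = (N / 2) * (N / 2)) {X : ℝ} (hX : (N : ℝ) = X) (h : 100 ≤ X) :
    X ^ 2 / 5 ≤ K' ∧ (K' : ℝ) + 1 ≤ X ^ 2 := by
  have h6 : (N : ℝ) - 1 ≤ 2 * ((N / 2 : ℕ) : ℝ) := by
    have : N ≤ 2 * (N / 2) + 1 := by omega
    have : (N : ℝ) ≤ 2 * ((N / 2 : ℕ) : ℝ) + 1 := by exact_mod_cast this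
    linarith
  have h7 : (K' : ℝ) = ((N / 2 : ℕ) : ℝ) * ((N / 2 : ℕ) : ℝ) := by rw [hK']; push_cast; ring
  have h8 : ((N / 2 : ℕ) : ℝ) ≤ (N : ℝ) / 2 := Nat.cast_div_le
  rw [hX] at h6 h8
  rw [h7]
  have h9 : (0 : ℝ) ≤ ((N / 2 : ℕ) : ℝ) := Nat.cast_nonneg _
  generalize ((N / 2 : ℕ) : ℝ) = Y at *
  clear h7 hX hK'
  constructor <;> nlinarith

/-- The numerical inequality. -/
theorem numer (A : ℝ) (hA : 1 ≤ A) : ∃ q0 : ℕ, ∀ q : ℕ, q0 ≤ q → ∀ (m n : ℕ) (la β ρ : ℝ) (K L N K' : ℕ),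
    K = q ^ 5 → L = q ^ 2 → N = K * L → K' = (N / 2) * (N / 2) → q ^ 16 ≤ m → m < (q + 1) ^ 16 →
    0 < β → 0 ≤ la → la ≤ A * Real.log m → n * β ≤ 2 * la → m * β ≤ la → (n : ℝ) ≤ 3 * m * la →
    ρ = 8 * q ^ 4 * (n + m) →
    (N.factorial : ℝ) * ((K' + 1 : ℝ) * (3 * (ρ ^ K * Real.exp (L * β * ρ)))) ^ N *
      (1 / 4) ^ K' < 1 := by
  -- log (q + 1) ≤ c q
  have hc : 0 < 1 / (8 * (79 + 448 * A)) := by positivity
  have h1 := (Real.isLittleO_log_id_atTop.bound hc)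
  have h2 : Tendsto (fun q : ℕ => (q : ℝ) + 1) atTop atTop :=
    tendsto_atTop_add_const_right _ _ tendsto_natCast_atTop_atTop
  have h3 := h2.eventually h1
  obtain ⟨q1, hq1⟩ := eventually_atTop.mp h3
  refine ⟨max q1 10, ?_⟩
  intro q hq m n la β ρ K L N K' hK hL hN hK' hqm hmq hβ hla0 hla hnβ hmβ hn hρ
  have hq10 : 10 ≤ q := (le_max_right _ _).trans hq
  have hqq := hq1 q ((le_max_left _ _).trans hq)
  have hqr : (10 : ℝ) ≤ q := by exact_mod_cast hq10
  set l := Real.log ((q : ℝ) + 1) with hl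
  have hl1 : 1 ≤ l := by
    rw [hl, Real.le_log_iff_exp_le (by linarith)]
    have := Real.exp_one_lt_d9
    linarith
  simp only [id, Real.norm_eq_abs] at hqq
  rw [abs_of_nonneg (by linarith : (0 : ℝ) ≤ Real.log ((q : ℝ) + 1)), abs_of_nonneg (by linarith : (0 : ℝ) ≤ (q : ℝ) + 1)] at hqq
  -- log m ≤ 16 l
  have hm0 : (0 : ℝ) < m := by
    have : 0 < q ^ 16 := Nat.pow_pos (by omega)
    exact_mod_cast lt_of_lt_of_le this hqm
  have hlm : Real.log m ≤ 16 * l := by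
    have h5 : (m : ℝ) ≤ ((q : ℝ) + 1) ^ 16 := by exact_mod_cast hmq.le
    calc Real.log m ≤ Real.log (((q : ℝ) + 1) ^ 16) := Real.log_le_log hm0 h5
      _ = 16 * l := by rw [Real.log_pow]; norm_num [hl]
  have hla2 : la ≤ 16 * A * l := by
    calc la ≤ A * Real.log m := hla
      _ ≤ A * (16 * l) := by gcongr
      _ = 16 * A * l := by ring
  have hNq : N = q ^ 7 := by rw [hN, hK, hL]; ring
  have hNr : (N : ℝ) = (q : ℝ) ^ 7 := by rw [hNq]; push_cast; ring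
  have hKr : (K : ℝ) = (q : ℝ) ^ 5 := by rw [hK]; push_cast; ring
  have hLr : (L : ℝ) = (q : ℝ) ^ 2 := by rw [hL]; push_cast; ring
  have hq0 : (0 : ℝ) < q := by linarith
  have hqn : 0 < q := by omega
  have hN0 : 0 < N := by rw [hNq]; exact Nat.pow_pos hqn
  -- K'
  have h100 : (100 : ℝ) ≤ (q : ℝ) ^ 7 := by
    calc (100 : ℝ) ≤ 10 ^ 7 := by norm_num
      _ ≤ (q : ℝ) ^ 7 := pow_le_pow_left₀ (by norm_num) hqr 7
  obtain ⟨hK'1, hK'2⟩ := halfsq hK' hNr h100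
  have hq14 : ((q : ℝ) ^ 7) ^ 2 = q ^ 14 := by ring
  rw [hq14] at hK'1 hK'2
  have hqm4 : (q : ℝ) ^ 4 ≤ m := by
    have h10 : q ^ 4 ≤ m := (Nat.pow_le_pow_right (by omega) (by norm_num)).trans hqm
    exact_mod_cast h10
  have hm1 : (1 : ℝ) ≤ m := by
    have : 1 ≤ m := le_trans (Nat.one_le_pow _ _ (by omega)) hqm
    exact_mod_cast this
  clear hqm hmq hK hL hN hK' hNq h1 h2 h3 hc
  -- ρ
  have hnr : (0 : ℝ) ≤ n := Nat.cast_nonneg n
  have hβρ : β * ρ ≤ 24 * q ^ 4 * la := by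
    rw [hρ]
    calc β * (8 * q ^ 4 * (n + m)) = 8 * q ^ 4 * (n * β + m * β) := by ring
      _ ≤ 8 * q ^ 4 * (2 * la + la) := by gcongr
      _ = 24 * q ^ 4 * la := by ring
  have hρ1 : 1 ≤ ρ := by
    rw [hρ]
    have h1 : (1 : ℝ) ≤ (q : ℝ) ^ 4 := one_le_pow₀ (by linarith)
    nlinarith
  have hlogρ : Real.log ρ ≤ (48 + 64 * A) * l := by
    have h9 := hqm4
    have h11 : ρ ≤ 8 * m * (m * (3 * la + 1)) := by
      rw [hρ]
      have : (n : ℝ) + m ≤ m * (3 * la + 1) := by nlinarith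
      gcongr
    have h12 : (0 : ℝ) < 3 * la + 1 := by linarith
    have h13 : Real.log (8 * m * (m * (3 * la + 1))) = Real.log 8 + 2 * Real.log m + Real.log (3 * la + 1) := by
      rw [Real.log_mul (by positivity) (by positivity), Real.log_mul (by positivity) (by positivity),
        Real.log_mul (by positivity) (by positivity)]
      ring
    have h14 : Real.log (3 * la + 1) ≤ 3 * la := by
      have := Real.log_le_sub_one_of_pos h12
      linarith
    have h15 : Real.log 8 ≤ 7 := by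
      have := Real.log_le_sub_one_of_pos (by norm_num : (0 : ℝ) < 8)
      linarith
    calc Real.log ρ ≤ Real.log (8 * m * (m * (3 * la + 1))) := Real.log_le_log (by linarith) h11
      _ ≤ 7 + 2 * (16 * l) + 3 * (16 * A * l) := by rw [h13]; linarith
      _ ≤ (48 + 64 * A) * l := by nlinarith
  -- take logarithms
  set T : ℝ := (K' + 1 : ℝ) * (3 * (ρ ^ K * Real.exp (L * β * ρ))) with hT
  have hT0 : 0 < T := by positivity
  have hlogT : Real.log T ≤ 16 * l + q ^ 5 * ((48 + 64 * A) * l) + q ^ 6 * (384 * A * l) := by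
    rw [hT, Real.log_mul (by positivity) (by positivity), Real.log_mul (by norm_num) (by positivity),
      Real.log_mul (by positivity) (by positivity), Real.log_pow, Real.log_exp]
    have h16 : Real.log ((K' : ℝ) + 1) ≤ 14 * l := by
      calc Real.log ((K' : ℝ) + 1) ≤ Real.log (((q : ℝ) + 1) ^ 14) := by
            apply Real.log_le_log (by positivity)
            refine hK'2.trans ?_
            gcongr; linarith
        _ = 14 * l := by rw [Real.log_pow]; norm_num [hl]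
    have h17 : Real.log 3 ≤ 2 * l := by
      have := Real.log_le_sub_one_of_pos (by norm_num : (0 : ℝ) < 3)
      linarith
    have h18 : (K : ℝ) * Real.log ρ ≤ q ^ 5 * ((48 + 64 * A) * l) := by
      rw [hKr]; gcongr
    have h19 : (L : ℝ) * β * ρ ≤ q ^ 6 * (384 * A * l) := by
      rw [hLr]
      calc (q : ℝ) ^ 2 * β * ρ = q ^ 2 * (β * ρ) := by ring
        _ ≤ q ^ 2 * (24 * q ^ 4 * la) := by gcongr
        _ ≤ q ^ 2 * (24 * q ^ 4 * (16 * A * l)) := by gcongr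
        _ = q ^ 6 * (384 * A * l) := by ring
    linarith
  have hfac : Real.log (N.factorial : ℝ) ≤ q ^ 7 * (7 * l) := by
    have h20 : (N.factorial : ℝ) ≤ (N : ℝ) ^ N := by exact_mod_cast Nat.factorial_le_pow N
    calc Real.log (N.factorial : ℝ) ≤ Real.log ((N : ℝ) ^ N) :=
          Real.log_le_log (by positivity) h20
      _ = N * Real.log N := by rw [Real.log_pow]
      _ = q ^ 7 * (7 * Real.log q) := by rw [hNr, Real.log_pow]; norm_num
      _ ≤ q ^ 7 * (7 * l) := by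
          have : Real.log q ≤ l := Real.log_le_log hq0 (by linarith)
          gcongr
  have h4 : Real.log (1 / 4 : ℝ) ≤ -1.38 := by
    have h5 : Real.log (1 / 4 : ℝ) = -(2 * Real.log 2) := by
      rw [one_div, Real.log_inv, show (4 : ℝ) = 2 ^ 2 by norm_num, Real.log_pow]; norm_num
    have := Real.log_two_gt_d9
    rw [h5]; linarith
  have hfinal : Real.log ((N.factorial : ℝ) * T ^ N * (1 / 4) ^ K') < 0 := by
    rw [Real.log_mul (by positivity) (by positivity), Real.log_mul (by positivity) (by positivity),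
      Real.log_pow, Real.log_pow]
    have h6 : (N : ℝ) * Real.log T ≤ q ^ 7 * (16 * l + q ^ 5 * ((48 + 64 * A) * l) + q ^ 6 * (384 * A * l)) := by
      rw [hNr]; gcongr
    have h7 : (K' : ℝ) * Real.log (1 / 4) ≤ -(q ^ 14 / 4) := by
      have h8 : (K' : ℝ) * Real.log (1 / 4) ≤ K' * (-1.38) := by gcongr
      have : (0 : ℝ) < q ^ 14 := by positivity
      nlinarith
    have h9 : (q : ℝ) ^ 7 * (7 * l) + q ^ 7 * (16 * l + q ^ 5 * ((48 + 64 * A) * l) + q ^ 6 * (384 * A * l))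
        ≤ q ^ 13 * ((71 + 448 * A) * l) := by
      have e1 : (q : ℝ) ^ 7 ≤ q ^ 12 / 10 := by
        have : (10 : ℝ) ≤ q ^ 5 := by
          calc (10 : ℝ) ≤ 10 ^ 5 := by norm_num
            _ ≤ (q : ℝ) ^ 5 := by gcongr
        have h12 : (q : ℝ) ^ 12 = q ^ 7 * q ^ 5 := by ring
        rw [h12]
        have : (0 : ℝ) < q ^ 7 := by positivity
        nlinarith
      have e2 : (q : ℝ) ^ 12 ≤ q ^ 13 := pow_le_pow_right₀ (by linarith) (by norm_num)
      have e3 : (0 : ℝ) ≤ l := by linarith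
      have e4 : (q : ℝ) ^ 7 * (23 * l) ≤ q ^ 13 * (23 * l) := by
        have : (q : ℝ) ^ 7 ≤ q ^ 13 := pow_le_pow_right₀ (by linarith) (by norm_num)
        gcongr
      have e5 : (q : ℝ) ^ 12 * ((48 + 64 * A) * l) ≤ q ^ 13 * ((48 + 64 * A) * l) := by gcongr
      nlinarith
    have h10 : (q : ℝ) ^ 13 * ((71 + 448 * A) * l) ≤ q ^ 14 / 8 * (11 / 10) := by
      have e6 : (79 + 448 * A) * l ≤ ((q : ℝ) + 1) / 8 := by
        have e7 : (79 + 448 * A) * (1 / (8 * (79 + 448 * A)) * ((q : ℝ) + 1)) = ((q : ℝ) + 1) / 8 := by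
          field_simp
        rw [← e7]
        gcongr
      have e8 : (71 + 448 * A) * l ≤ ((q : ℝ) + 1) / 8 := by nlinarith
      have e9 : ((q : ℝ) + 1) / 8 ≤ q * (11 / 10) / 8 := by linarith
      calc (q : ℝ) ^ 13 * ((71 + 448 * A) * l) ≤ (q : ℝ) ^ 13 * ((q : ℝ) * (11 / 10) / 8) :=
            mul_le_mul_of_nonneg_left (e8.trans e9) (by positivity)
        _ = (q : ℝ) ^ 14 / 8 * (11 / 10) := by ring
    have h11 : (0 : ℝ) < q ^ 14 := by positivity
    linarith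
  have hpos : 0 < (N.factorial : ℝ) * T ^ N * (1 / 4) ^ K' := by positivity
  exact (Real.log_neg_iff hpos).mp hfinal

theorem exists_root (m : ℕ) : ∃ q : ℕ, q ^ 16 ≤ m ∧ m < (q + 1) ^ 16 := by
  have h : ∃ t : ℕ, m < (t + 1) ^ 16 := ⟨m, by
    calc m < m + 1 := Nat.lt_succ_self m
      _ ≤ (m + 1) ^ 16 := Nat.le_self_pow (by norm_num) _⟩
  classical
  refine ⟨Nat.find h, ?_, Nat.find_spec h⟩
  by_contra hc
  rcases Nat.eq_zero_or_pos (Nat.find h) with h0 | h0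
  · rw [h0] at hc; simp at hc
  · have h1 := Nat.find_min h (m := Nat.find h - 1) (by omega)
    apply h1
    have h2 : Nat.find h - 1 + 1 = Nat.find h := by omega
    rw [h2]
    exact not_le.mp hc

theorem small_log {x y : ℝ} (hx : 0 ≤ x) (hxy : x + 1 ≤ y) :
    -(2 * y) ≤ x * (-(2 * Real.log 2)) := by
  have h20 := Real.log_two_lt_d9
  have h21 := Real.log_two_gt_d9
  nlinarith

theorem log_near {y η : ℝ} (hy0 : 0 < y) (hη0 : 0 < η) (hη2 : η ≤ 1 / 2) (hx : |y - 1| < η) :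
    |Real.log y| ≤ 2 * η := by
  have h7 := abs_lt.mp hx
  have h8 : Real.log y ≤ y - 1 := Real.log_le_sub_one_of_pos hy0
  have h9 : 1 - y⁻¹ ≤ Real.log y := Real.one_sub_inv_le_log_of_pos hy0
  have h10 : y⁻¹ ≤ 1 + 2 * η := by
    have hy2 : 1 / 2 ≤ y := by linarith
    rw [inv_le_iff_one_le_mul₀ hy0]
    nlinarith
  rw [abs_le]
  constructor <;> linarith

/-- Powers of multiplicatively independent bases of polynomial size are far apart. -/
theorem gelfond (k A : ℕ) (hk : 1 ≤ k) (hA : 1 ≤ A) : ∃ m0 : ℕ, ∀ m n a b : ℕ, m0 ≤ m →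
    Nat.Coprime m n → 2 ≤ b → b < a → a ≤ m ^ A → Indep a b →
    (a : ℝ) ^ ((1 - 1 / (k : ℝ)) * m) ≤ |(a : ℝ) ^ m - (b : ℝ) ^ n| := by
  obtain ⟨q0, hq0⟩ := numer (A : ℝ) (by exact_mod_cast hA)
  refine ⟨(max q0 (max (k + 1) 10)) ^ 16, ?_⟩
  intro m n a b hm hmn hb hba haA hi
  by_contra hcon
  push Not at hcon
  obtain ⟨q, hq1, hq2⟩ := exists_root m
  have hqge : max q0 (max (k + 1) 10) ≤ q := by
    by_contra h
    have h1 : q + 1 ≤ max q0 (max (k + 1) 10) := by omega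
    have h2 := Nat.pow_le_pow_left h1 16
    omega
  have hqq0 : q0 ≤ q := (le_max_left _ _).trans hqge
  have hqk : k + 1 ≤ q := (le_max_left _ _).trans ((le_max_right _ _).trans hqge)
  have hq10 : 10 ≤ q := (le_max_right _ _).trans ((le_max_right _ _).trans hqge)
  have hqr : (10 : ℝ) ≤ q := by exact_mod_cast hq10
  have hm16 : (q : ℝ) ^ 16 ≤ m := by exact_mod_cast hq1
  have hqm4 : q ^ 4 ≤ m := (Nat.pow_le_pow_right (by omega) (by norm_num)).trans hq1
  have hq12 : q ^ 16 ≤ m ∧ m < (q + 1) ^ 16 := ⟨hq1, hq2⟩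
  have h15 : (a : ℝ) ≤ (m : ℝ) ^ A := by exact_mod_cast haA
  clear hq1 hq2 hm hqge haA
  have hmpos : (0 : ℝ) < m := lt_of_lt_of_le (by positivity) hm16
  have ha3 : (3 : ℝ) ≤ a := by exact_mod_cast (by omega : 3 ≤ a)
  have hb2 : (2 : ℝ) ≤ b := by exact_mod_cast hb
  have ha0 : (0 : ℝ) < a := by linarith
  have hb0 : (0 : ℝ) < b := by linarith
  have hkr : (1 : ℝ) ≤ k := by exact_mod_cast hk
  have hk0 : (0 : ℝ) < k := by linarith
  set la := Real.log a with hla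
  have hla1 : 1 ≤ la := by
    rw [hla, Real.le_log_iff_exp_le ha0]
    have := Real.exp_one_lt_d9
    linarith
  set lb := Real.log b with hlb
  have hlb0 : 0 < lb := Real.log_pos (by linarith)
  have hlb2 : (0.69 : ℝ) ≤ lb := by
    have h1 : Real.log 2 ≤ lb := Real.log_le_log (by norm_num) hb2
    have := Real.log_two_gt_d9
    linarith
  have hlba : lb ≤ la := Real.log_le_log hb0 (by exact_mod_cast hba.le)
  -- the ratio
  set η : ℝ := Real.exp (-(m / k * la)) with hη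
  have hx : |(b : ℝ) ^ n / (a : ℝ) ^ m - 1| < η := by
    have h1 : (b : ℝ) ^ n / (a : ℝ) ^ m - 1 = -((a : ℝ) ^ m - (b : ℝ) ^ n) / (a : ℝ) ^ m := by
      have : (a : ℝ) ^ m ≠ 0 := by positivity
      field_simp; ring
    have h2 : (a : ℝ) ^ ((1 - 1 / (k : ℝ)) * m) = η * (a : ℝ) ^ m := by
      rw [hη, ← Real.rpow_natCast, Real.rpow_def_of_pos ha0, Real.rpow_def_of_pos ha0, ← Real.exp_add]
      congr 1
      rw [← hla]; field_simp; ring
    rw [h1, abs_div, abs_neg, abs_of_pos (by positivity : (0 : ℝ) < (a : ℝ) ^ m), div_lt_iff₀ (by positivity), ← h2]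
    exact hcon
  have hmk : (q : ℝ) ^ 15 ≤ m / k * la := by
    have h3 : (k : ℝ) ≤ q := by exact_mod_cast (by omega : k ≤ q)
    have h4 : (q : ℝ) ^ 15 ≤ m / k := by
      rw [le_div_iff₀ hk0]
      calc (q : ℝ) ^ 15 * k ≤ (q : ℝ) ^ 15 * q := by gcongr
        _ = (q : ℝ) ^ 16 := by ring
        _ ≤ m := hm16
    calc (q : ℝ) ^ 15 ≤ m / k := h4
      _ = m / k * 1 := by ring
      _ ≤ m / k * la := by gcongr
  have hη1 : η ≤ Real.exp (-(q : ℝ) ^ 15) := by
    rw [hη]; exact Real.exp_le_exp.mpr (by linarith)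
  have hη2 : η ≤ 1 / 2 := by
    refine hη1.trans ?_
    have h5 : (1 : ℝ) ≤ (q : ℝ) ^ 15 := one_le_pow₀ (by linarith)
    calc Real.exp (-(q : ℝ) ^ 15) ≤ Real.exp (-1) := Real.exp_le_exp.mpr (by linarith)
      _ ≤ 1 / 2 := by
        rw [Real.exp_neg, inv_le_comm₀ (Real.exp_pos _) (by norm_num)]
        have := Real.exp_one_gt_d9
        norm_num; linarith
  have hlog : |n * lb - m * la| ≤ 2 * η := by
    set y := (b : ℝ) ^ n / (a : ℝ) ^ m with hy
    have hy0 : 0 < y := by positivity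
    have h6 : Real.log y = n * lb - m * la := by
      rw [hy, Real.log_div (by positivity) (by positivity), Real.log_pow, Real.log_pow]
    rw [← h6]
    exact log_near hy0 (Real.exp_pos _) hη2 hx
  have hη0 : 0 < η := Real.exp_pos _
  -- n β ≤ 2 la
  set β : ℝ := lb / m with hβ
  have hβ0 : 0 < β := by positivity
  have hmβ : m * β = lb := by rw [hβ]; field_simp
  have hm1 : (1 : ℝ) ≤ m := le_trans (one_le_pow₀ (by linarith)) hm16
  set δ : ℝ := la - n * β with hδ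
  have hδm : m * δ = -(n * lb - m * la) := by
    rw [hδ, hβ]; field_simp; ring
  have hδ1 : |δ| ≤ 2 * η := by
    have h11 : m * |δ| ≤ 2 * η := by
      have e1 : (m : ℝ) * |δ| = |(m : ℝ) * δ| := by rw [abs_mul, abs_of_pos hmpos]
      rw [e1, hδm, abs_neg]; exact hlog
    exact (le_mul_of_one_le_left (abs_nonneg δ) hm1).trans h11
  have hnβ : n * β ≤ 2 * la := by
    have := neg_abs_le δ
    linarith
  have hn3 : (n : ℝ) ≤ 3 * m * la := by
    have h12 : n * lb ≤ 2 * m * la := by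
      calc n * lb = m * (n * β) := by rw [hβ]; field_simp
        _ ≤ m * (2 * la) := by gcongr
        _ = 2 * m * la := by ring
    have h13 : (n : ℝ) * 0.69 ≤ n * lb := by gcongr
    have h14 : (0 : ℝ) < m * la := by positivity
    linarith
  have hlaA : la ≤ A * Real.log m := by
    calc la ≤ Real.log ((m : ℝ) ^ A) := Real.log_le_log ha0 h15
      _ = A * Real.log m := Real.log_pow _ _
  set ρ : ℝ := 8 * q ^ 4 * (n + m) with hρ
  have hlt := hq0 q hqq0 m n la β ρ (q ^ 5) (q ^ 2) (q ^ 5 * q ^ 2)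
    ((q ^ 5 * q ^ 2 / 2) * (q ^ 5 * q ^ 2 / 2)) rfl rfl rfl rfl hq12.1 hq12.2 hβ0 (by linarith) hlaA hnβ
    (by rw [hmβ]; exact hlba) hn3 hρ
  have hge := core (a := a) (b := b) (m := m) (n := n) (q := q) (K := q ^ 5) (L := q ^ 2)
    (N := q ^ 5 * q ^ 2) (K' := (q ^ 5 * q ^ 2 / 2) * (q ^ 5 * q ^ 2 / 2)) rfl rfl rfl rfl
    (by omega) hb hba.le hi hmn hqm4 (β := β) (ρ := ρ) (δ := δ) hβ hρ hδ ?_
  · exact absurd hge (not_le.mpr hlt)
  · -- 4 q^6 |δ| ≤ (1/4)^K'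
    have hN : ((q ^ 5 * q ^ 2 : ℕ) : ℝ) = (q : ℝ) ^ 7 := by push_cast; ring
    have h100 : (100 : ℝ) ≤ (q : ℝ) ^ 7 := by
      calc (100 : ℝ) ≤ 10 ^ 7 := by norm_num
        _ ≤ (q : ℝ) ^ 7 := pow_le_pow_left₀ (by norm_num) hqr 7
    obtain ⟨_, h16⟩ := halfsq (N := q ^ 5 * q ^ 2) rfl hN h100
    generalize (q ^ 5 * q ^ 2 / 2) * (q ^ 5 * q ^ 2 / 2) = K' at *
    have h17 : ((q : ℝ) ^ 7) ^ 2 = q ^ 14 := by ring
    rw [h17] at h16
    have h18 : Real.exp (-(2 * (q : ℝ) ^ 14)) ≤ (1 / 4 : ℝ) ^ K' := by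
      have h19 : (1 / 4 : ℝ) = Real.exp (-(2 * Real.log 2)) := by
        rw [Real.exp_neg, mul_comm, Real.exp_mul, Real.exp_log (by norm_num)]
        norm_num
      rw [h19, ← Real.exp_nat_mul]
      apply Real.exp_le_exp.mpr
      exact small_log (Nat.cast_nonneg K') h16
    refine le_trans ?_ h18
    have h22 : 4 * (q : ℝ) ^ 6 * |δ| ≤ 8 * (q : ℝ) ^ 6 * Real.exp (-(q : ℝ) ^ 15) := by
      have : |δ| ≤ 2 * Real.exp (-(q : ℝ) ^ 15) := hδ1.trans (by linarith)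
      calc 4 * (q : ℝ) ^ 6 * |δ| ≤ 4 * (q : ℝ) ^ 6 * (2 * Real.exp (-(q : ℝ) ^ 15)) := by gcongr
        _ = 8 * (q : ℝ) ^ 6 * Real.exp (-(q : ℝ) ^ 15) := by ring
    refine h22.trans ?_
    have h23 : 8 * (q : ℝ) ^ 6 ≤ Real.exp (8 * (q : ℝ) ^ 6) := by
      have := Real.add_one_le_exp (8 * (q : ℝ) ^ 6)
      linarith
    calc 8 * (q : ℝ) ^ 6 * Real.exp (-(q : ℝ) ^ 15)
        ≤ Real.exp (8 * (q : ℝ) ^ 6) * Real.exp (-(q : ℝ) ^ 15) := by gcongr
      _ = Real.exp (8 * (q : ℝ) ^ 6 + -(q : ℝ) ^ 15) := by rw [Real.exp_add]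
      _ ≤ Real.exp (-(2 * (q : ℝ) ^ 14)) := by
          apply Real.exp_le_exp.mpr
          have h24 : (q : ℝ) ^ 15 = q * q ^ 14 := by ring
          have h25 : (q : ℝ) ^ 6 ≤ q ^ 14 := pow_le_pow_right₀ (by linarith) (by norm_num)
          have h26 : (10 : ℝ) * q ^ 14 ≤ q * q ^ 14 := by gcongr
          linarith

end Pool.Agent.Lib.MP3c6092
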