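import Mathlib
import Pool.Agent.Lib.MP_3c6092_nt.Count
import Pool.Agent.Lib.MP_3c6092_nt.Gelfond

/-!
# Leech's problem: almost every pair of bases
-/

namespace Pool.Agent.Lib.MP3c6092

open Finset

theorem uniform_Bs {k m n N M : ℕ} (hk : 3 ≤ k) (hN : 1 ≤ N) (hm : 2 ≤ m) (hmM : m ≤ M) (hmn : m < n) :
    ((Bs k m n N).card : ℝ) ≤ (2 * (N : ℝ)) ^ (1 - 1 / (k : ℝ)) * (104 * (M + 1)) *
      ((Nat.log 2 N + 1 : ℕ) : ℝ) := by
  have hN1 : (1 : ℝ) ≤ N := by exact_mod_cast hN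
  have h2N : (1 : ℝ) ≤ 2 * N := by linarith
  have hk0 : (0 : ℝ) < k := by exact_mod_cast (by omega : 0 < k)
  have hk3 : (3 : ℝ) ≤ k := by exact_mod_cast hk
  have hkk : 1 / (k : ℝ) ≤ 1 / 3 := one_div_le_one_div_of_le (by norm_num) hk3
  have hm0 : (0 : ℝ) < m := by exact_mod_cast (by omega : 0 < m)
  have hn0 : (0 : ℝ) < n := by exact_mod_cast (by omega : 0 < n)
  have hMr : (m : ℝ) ≤ M := by exact_mod_cast hmM
  have hM1 : (1 : ℝ) ≤ 104 * ((M : ℝ) + 1) := by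
    have : (0 : ℝ) ≤ M := Nat.cast_nonneg M
    linarith
  set lg : ℝ := ((Nat.log 2 N + 1 : ℕ) : ℝ) with hlg
  have hlg1 : (1 : ℝ) ≤ lg := by
    rw [hlg]; push_cast
    have : (0 : ℝ) ≤ (Nat.log 2 N : ℝ) := Nat.cast_nonneg _
    linarith
  set Y : ℝ := (2 * (N : ℝ)) ^ (1 - 1 / (k : ℝ)) with hY
  have hY1 : 1 ≤ Y := Real.one_le_rpow h2N (by linarith)
  have hbig : Y ≤ Y * (104 * (M + 1)) * lg := by
    have h1 : Y * 1 * 1 ≤ Y * (104 * (M + 1)) * lg := by gcongr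
    linarith
  have htriv : ∀ e : ℝ, e ≤ 1 - 1 / (k : ℝ) → (m : ℝ) / n ≤ e →
      ((Bs k m n N).card : ℝ) ≤ Y * (104 * (M + 1)) * lg := by
    intro e he1 he2
    refine (card_Bs_triv (by omega) (by omega)).trans (le_trans ?_ hbig)
    exact Real.rpow_le_rpow_of_exponent_le h2N (he2.trans he1)
  rcases Nat.lt_or_ge m k with hmk | hmk
  · refine htriv ((m : ℝ) / (m + 1)) ?_ ?_
    · have h1 : (m : ℝ) / (m + 1) = 1 - 1 / (m + 1) := by field_simp; ring
      rw [h1]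
      have h2 : (m : ℝ) + 1 ≤ k := by exact_mod_cast hmk
      have h3 : 1 / (k : ℝ) ≤ 1 / ((m : ℝ) + 1) := one_div_le_one_div_of_le (by linarith) h2
      linarith
    · have h2 : (m : ℝ) + 1 ≤ n := by exact_mod_cast hmn
      gcongr
  · rcases Nat.lt_or_ge n (2 * m) with hn2 | hn2
    · refine (card_Bs_log (by omega) hmk hmn hn2).trans ?_
      have h1 : (2 * (N : ℝ)) ^ (2 / 3 : ℝ) ≤ Y :=
        Real.rpow_le_rpow_of_exponent_le h2N (by linarith)
      have h2 : ((16 * m + 4 : ℕ) : ℝ) ≤ 16 * M + 4 := by push_cast; linarith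
      have h3 : ((2 * (N : ℝ)) ^ (2 / 3 : ℝ) + 1) * ((16 * m + 4 : ℕ) : ℝ) + 64 ≤ Y * (104 * (M + 1)) := by
        calc ((2 * (N : ℝ)) ^ (2 / 3 : ℝ) + 1) * ((16 * m + 4 : ℕ) : ℝ) + 64
            ≤ (Y + Y) * (16 * M + 4) + 64 * Y := by
              have : (64 : ℝ) ≤ 64 * Y := by linarith
              gcongr
          _ = Y * (32 * M + 72) := by ring
          _ ≤ Y * (104 * (M + 1)) := by
              have : (0 : ℝ) ≤ M := Nat.cast_nonneg M
              gcongr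
              linarith
      gcongr
    · refine htriv (1 / 2) (by linarith) ?_
      have h2 : 2 * (m : ℝ) ≤ n := by exact_mod_cast hn2
      rw [div_le_div_iff₀ hn0 (by norm_num)]
      linarith

open Classical in
/-- the pairs for given exponents -/
noncomputable def Tmn (k m n N : ℕ) : Finset (ℕ × ℕ) :=
  (Finset.range (N + 1) ×ˢ Finset.range (N + 1)).filter
    (fun p => 1 ≤ p.2 ∧ p.2 < p.1 ∧ Bad k p.1 p.2 m n)

theorem card_Tmn {k m n N : ℕ} (hm : 2 ≤ m) : (Tmn k m n N).card ≤ (Bs k m n N).card := by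
  classical
  refine Finset.card_le_card_of_injOn Prod.snd ?_ ?_
  · intro p hp
    simp only [Tmn, mem_coe, mem_filter, mem_product, mem_range] at hp
    simp only [Bs, mem_coe, mem_filter, mem_range]
    exact ⟨hp.1.2, hp.2.1, p.1, hp.2.2.1, by omega, hp.2.2.2⟩
  · intro p hp p' hp' he
    simp only [Tmn, mem_coe, mem_filter, mem_product, mem_range] at hp hp'
    have h1 := hp.2.2.2.lt_pow (by omega) (by omega : 1 ≤ m)
    have h2 := hp'.2.2.2.lt_pow (by omega) (by omega : 1 ≤ m)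
    rw [← he] at h2
    apply Prod.ext _ he
    by_contra hne
    rcases lt_or_gt_of_ne hne with h | h
    · exact unique_a hm (by omega) h h1 h2
    · exact unique_a hm (by omega) h h2 h1

/-- the counted pairs -/
def T (k N : ℕ) : Set (ℕ × ℕ) :=
  {p | 1 ≤ p.2 ∧ p.2 < p.1 ∧ p.1 ≤ N ∧ ∃ m n : ℕ, 1 ≤ m ∧ 1 ≤ n ∧ Bad k p.1 p.2 m n}

theorem cover {k A m0 N M : ℕ}
    (hg : ∀ m n a b : ℕ, m0 ≤ m → Nat.Coprime m n → 2 ≤ b → b < a → a ≤ m ^ A → Indep a b →
      (a : ℝ) ^ ((1 - 1 / (k : ℝ)) * m) ≤ |(a : ℝ) ^ m - (b : ℝ) ^ n|)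
    (hM : ∀ m : ℕ, M < m → m0 ≤ m ∧ N ≤ m ^ A) :
    T k N ⊆ ↑((Finset.Icc 2 M).biUnion fun m => (Finset.Icc (m + 1) ((Nat.log 2 N + 1) * M)).biUnion
      fun n => Tmn k m n N) := by
  classical
  rintro ⟨a, b⟩ ⟨hb1, hba, haN, m, n, hm, hn, hbad⟩
  simp only at hb1 hba haN hbad
  have ha2 : 2 ≤ a := by omega
  obtain ⟨m, n, hm, hn, hcop, hbad⟩ := hbad.coprime ha2 hm hn
  have hm2 := hbad.two_le_m ha2 hm
  have hb2 := hbad.two_le_b hb1 hba hm
  have hmn := hbad.lt_n hb1 hba hm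
  have hind := hbad.indep ha2 hm
  have hmM : m ≤ M := by
    by_contra hc
    obtain ⟨h1, h2⟩ := hM m (by omega)
    have h3 := hg m n a b h1 hcop hb2 hba (haN.trans h2) hind
    have h4 := h3.trans_lt hbad.2
    have ha1 : (1 : ℝ) < a := by exact_mod_cast (by omega : 1 < a)
    have h5 := (Real.rpow_lt_rpow_left_iff ha1).mp h4
    linarith
  have hnQ : n ≤ (Nat.log 2 N + 1) * M := by
    have h1 := b_le (by omega : 1 ≤ a) (hbad.lt_pow ha2 hm)
    have h2 : b ^ n ≤ 2 * a ^ m := by exact_mod_cast h1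
    have h3 : a < 2 ^ (Nat.log 2 N + 1) := lt_of_le_of_lt haN (Nat.lt_pow_succ_log_self (by norm_num) N)
    have h4 : 2 ^ n ≤ b ^ n := Nat.pow_le_pow_left hb2 n
    have h5 : a ^ m < (2 ^ (Nat.log 2 N + 1)) ^ m := Nat.pow_lt_pow_left h3 (by omega)
    have h6 : 2 ^ n < 2 ^ ((Nat.log 2 N + 1) * m + 1) := by
      calc 2 ^ n ≤ 2 * a ^ m := h4.trans h2
        _ < 2 * (2 ^ (Nat.log 2 N + 1)) ^ m := by omega
        _ = 2 ^ ((Nat.log 2 N + 1) * m + 1) := by rw [← pow_mul, pow_succ, mul_comm]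
    have h7 := (Nat.pow_lt_pow_iff_right (by norm_num : 1 < 2)).mp h6
    have h8 : (Nat.log 2 N + 1) * m ≤ (Nat.log 2 N + 1) * M := Nat.mul_le_mul_left _ hmM
    omega
  simp only [coe_biUnion, Set.mem_iUnion, mem_coe, mem_Icc, Tmn, mem_filter, mem_product, mem_range]
  exact ⟨m, ⟨hm2, hmM⟩, n, ⟨by omega, hnQ⟩, ⟨by omega, by omega⟩, hb1, hba, hbad⟩

theorem main (k : ℕ) (hk : 3 ≤ k) (ε : ℝ) (hε : 0 < ε) :
    ∃ C : ℝ, ∀ N : ℕ, 1 ≤ N → ((T k N).ncard : ℝ) ≤ C * (N : ℝ) ^ (1 - 1 / (k : ℝ) + ε) := by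
  classical
  set A : ℕ := ⌈5 / ε⌉₊ with hA
  have hA1 : 1 ≤ A := Nat.one_le_iff_ne_zero.mpr (by
    have : 0 < A := Nat.ceil_pos.mpr (by positivity)
    omega)
  have hA0 : (0 : ℝ) < A := by exact_mod_cast hA1
  have hAε : 5 / (A : ℝ) ≤ ε := by
    have h1 : 5 / ε ≤ A := Nat.le_ceil _
    rw [div_le_iff₀ hε] at h1
    rw [div_le_iff₀ hA0]
    linarith
  obtain ⟨m0, hg⟩ := gelfond k A (by omega) hA1
  refine ⟨208 * ((m0 : ℝ) + 2) ^ 3 * (2 * A + 1) ^ 2, ?_⟩
  intro N hN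
  have hN1 : (1 : ℝ) ≤ N := by exact_mod_cast hN
  set x : ℝ := (N : ℝ) ^ (1 / (A : ℝ)) with hx
  have hx1 : 1 ≤ x := Real.one_le_rpow hN1 (by positivity)
  set M : ℕ := ⌊(m0 : ℝ) + x⌋₊ with hM
  have hMx : (M : ℝ) ≤ m0 + x := Nat.floor_le (by positivity)
  have hMprop : ∀ m : ℕ, M < m → m0 ≤ m ∧ N ≤ m ^ A := by
    intro m hm
    have h1 : (m0 : ℝ) + x < m := (Nat.floor_lt (by positivity)).mp hm
    constructor
    · have : (m0 : ℝ) < m := by linarith
      exact_mod_cast this.le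
    · have h2 : x ≤ m := by
        have : (0 : ℝ) ≤ m0 := Nat.cast_nonneg m0
        linarith
      have h3 : (N : ℝ) ≤ (m : ℝ) ^ A := by
        calc (N : ℝ) = x ^ A := by
              rw [hx, ← Real.rpow_natCast, ← Real.rpow_mul (by linarith), one_div_mul_cancel hA0.ne',
                Real.rpow_one]
          _ ≤ (m : ℝ) ^ A := by gcongr
      exact_mod_cast h3
  have hcov := cover (k := k) (A := A) (m0 := m0) (N := N) (M := M) hg hMprop
  set lg : ℝ := ((Nat.log 2 N + 1 : ℕ) : ℝ) with hlg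
  have hlg1 : (1 : ℝ) ≤ lg := by
    rw [hlg]; push_cast
    have : (0 : ℝ) ≤ (Nat.log 2 N : ℝ) := Nat.cast_nonneg _
    linarith
  set Y : ℝ := (2 * (N : ℝ)) ^ (1 - 1 / (k : ℝ)) with hY
  have hY0 : 0 < Y := by positivity
  set Bd : ℝ := Y * (104 * (M + 1)) * lg with hBd
  have hBd0 : 0 ≤ Bd := by positivity
  have hM0 : (0 : ℝ) ≤ M := Nat.cast_nonneg M
  have hinner : ∀ m ∈ Finset.Icc 2 M,
      ((((Finset.Icc (m + 1) ((Nat.log 2 N + 1) * M)).biUnion fun n => Tmn k m n N)).card : ℝ) ≤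
      (lg * M) * Bd := by
    intro m hm
    rw [Finset.mem_Icc] at hm
    have h1 : ((((Finset.Icc (m + 1) ((Nat.log 2 N + 1) * M)).biUnion fun n => Tmn k m n N)).card : ℝ)
        ≤ ∑ n ∈ Finset.Icc (m + 1) ((Nat.log 2 N + 1) * M), ((Tmn k m n N).card : ℝ) := by
      have := Finset.card_biUnion_le (s := Finset.Icc (m + 1) ((Nat.log 2 N + 1) * M))
        (t := fun n => Tmn k m n N)
      exact_mod_cast this
    refine h1.trans ?_
    calc ∑ n ∈ Finset.Icc (m + 1) ((Nat.log 2 N + 1) * M), ((Tmn k m n N).card : ℝ)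
        ≤ ∑ _n ∈ Finset.Icc (m + 1) ((Nat.log 2 N + 1) * M), Bd := by
          refine Finset.sum_le_sum fun n hn => ?_
          rw [Finset.mem_Icc] at hn
          have h2 : ((Tmn k m n N).card : ℝ) ≤ ((Bs k m n N).card : ℝ) := by
            exact_mod_cast card_Tmn hm.1
          exact h2.trans (uniform_Bs hk hN hm.1 hm.2 (by omega))
      _ = ((Finset.Icc (m + 1) ((Nat.log 2 N + 1) * M)).card : ℝ) * Bd := by
          rw [Finset.sum_const, nsmul_eq_mul]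
      _ ≤ (lg * M) * Bd := by
          have h3 : ((Finset.Icc (m + 1) ((Nat.log 2 N + 1) * M)).card : ℝ) ≤ lg * M := by
            rw [Nat.card_Icc]
            have h4 : (Nat.log 2 N + 1) * M + 1 - (m + 1) ≤ (Nat.log 2 N + 1) * M := by omega
            have h5 : (((Nat.log 2 N + 1) * M + 1 - (m + 1) : ℕ) : ℝ) ≤ (((Nat.log 2 N + 1) * M : ℕ) : ℝ) := by
              exact_mod_cast h4
            rw [hlg]
            push_cast at h5 ⊢
            exact h5
          gcongr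
  have htotal : ((T k N).ncard : ℝ) ≤ M * ((lg * M) * Bd) := by
    have h1 : (T k N).ncard ≤ ((Finset.Icc 2 M).biUnion fun m =>
        (Finset.Icc (m + 1) ((Nat.log 2 N + 1) * M)).biUnion fun n => Tmn k m n N).card := by
      rw [← Set.ncard_coe_finset]
      exact Set.ncard_le_ncard hcov (Finset.finite_toSet _)
    have h2 := Finset.card_biUnion_le (s := Finset.Icc 2 M)
        (t := fun m => (Finset.Icc (m + 1) ((Nat.log 2 N + 1) * M)).biUnion fun n => Tmn k m n N)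
    calc ((T k N).ncard : ℝ) ≤ ∑ m ∈ Finset.Icc 2 M,
          ((((Finset.Icc (m + 1) ((Nat.log 2 N + 1) * M)).biUnion fun n => Tmn k m n N)).card : ℝ) := by
          exact_mod_cast h1.trans h2
      _ ≤ ∑ _m ∈ Finset.Icc 2 M, (lg * M) * Bd := Finset.sum_le_sum hinner
      _ = ((Finset.Icc 2 M).card : ℝ) * ((lg * M) * Bd) := by rw [Finset.sum_const, nsmul_eq_mul]
      _ ≤ M * ((lg * M) * Bd) := by
          have h3 : ((Finset.Icc 2 M).card : ℝ) ≤ M := by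
            rw [Nat.card_Icc]
            have : M + 1 - 2 ≤ M := by omega
            exact_mod_cast this
          gcongr
  -- numerical bounds
  have hM2 : (M : ℝ) + 1 ≤ (m0 + 2) * x := by
    have h0 : (0 : ℝ) ≤ m0 := Nat.cast_nonneg m0
    nlinarith
  have hlg2 : lg ≤ (2 * A + 1) * x := by
    have h1 : (Nat.log 2 N : ℝ) ≤ Real.log N / Real.log 2 := by
      have h2 : 2 ^ (Nat.log 2 N) ≤ N := Nat.pow_log_le_self 2 (by omega)
      have h3 : ((2 : ℝ) ^ (Nat.log 2 N)) ≤ N := by exact_mod_cast h2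
      have h4 := Real.log_le_log (by positivity) h3
      rw [Real.log_pow] at h4
      rw [le_div_iff₀ (Real.log_pos (by norm_num))]
      exact h4
    have h5 : Real.log N ≤ x / (1 / (A : ℝ)) := Real.log_le_rpow_div (by linarith) (by positivity)
    have h6 : x / (1 / (A : ℝ)) = A * x := by field_simp
    have h7 : (1 / 2 : ℝ) ≤ Real.log 2 := by
      have := Real.log_two_gt_d9
      linarith
    have h8 : Real.log N / Real.log 2 ≤ 2 * (A * x) := by
      rw [div_le_iff₀ (by linarith)]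
      rw [h6] at h5
      have h9 : (0 : ℝ) ≤ A * x := by positivity
      nlinarith
    rw [hlg]; push_cast
    nlinarith
  have hY2 : Y ≤ 2 * (N : ℝ) ^ (1 - 1 / (k : ℝ)) := by
    rw [hY, Real.mul_rpow (by norm_num) (by linarith)]
    have h1 : (2 : ℝ) ^ (1 - 1 / (k : ℝ)) ≤ 2 := by
      calc (2 : ℝ) ^ (1 - 1 / (k : ℝ)) ≤ (2 : ℝ) ^ (1 : ℝ) := by
            apply Real.rpow_le_rpow_of_exponent_le (by norm_num)
            have : 0 ≤ 1 / (k : ℝ) := by positivity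
            linarith
        _ = 2 := Real.rpow_one 2
    gcongr
  have hx0 : 0 < x := by linarith
  set Z : ℝ := (N : ℝ) ^ (1 - 1 / (k : ℝ)) with hZ
  have hZ0 : 0 < Z := by positivity
  calc ((T k N).ncard : ℝ) ≤ M * ((lg * M) * Bd) := htotal
    _ ≤ (M + 1) * ((lg * (M + 1)) * (Y * (104 * (M + 1)) * lg)) := by
        rw [hBd]
        gcongr <;> linarith
    _ = 104 * (M + 1) ^ 3 * lg ^ 2 * Y := by ring
    _ ≤ 104 * ((m0 + 2) * x) ^ 3 * ((2 * A + 1) * x) ^ 2 * (2 * Z) := by gcongr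
    _ = 208 * ((m0 : ℝ) + 2) ^ 3 * (2 * A + 1) ^ 2 * (Z * x ^ 5) := by ring
    _ ≤ 208 * ((m0 : ℝ) + 2) ^ 3 * (2 * A + 1) ^ 2 * (N : ℝ) ^ (1 - 1 / (k : ℝ) + ε) := by
        have h1 : Z * x ^ 5 ≤ (N : ℝ) ^ (1 - 1 / (k : ℝ) + ε) := by
          have h2 : x ^ 5 = (N : ℝ) ^ (5 / (A : ℝ)) := by
            rw [hx, ← Real.rpow_natCast, ← Real.rpow_mul (by linarith)]
            congr 1; push_cast; ring
          rw [h2, hZ, ← Real.rpow_add (by linarith)]
          apply Real.rpow_le_rpow_of_exponent_le hN1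
          linarith
        gcongr

end Pool.Agent.Lib.MP3c6092
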